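import Mathlib
import Pool.Graph.R_seed8.Y789.SG.LocI

set_option autoImplicit false

/-!
# The determinant of combinations of logarithms along analytic branches
-/

namespace Pool.Agent.H76.KF

open Polynomial Filter Topology
open Pool.Agent.W289.SL Pool.Agent.W254.LF Pool.Agent.Y789.SG

/-- the logarithmic derivative of a composite with the logarithm -/
lemma log_deriv {p : ℕ} [Fact p.Prime] {L : ℂ_[p] → ℂ_[p]} (hL : IsIwasawaLog p L)
    {E : Type} [Field E] [Algebra ℂ_[p] E] {D0 : Derivation ℂ_[p] E E}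
    {T : (ℂ_[p] → ℂ_[p]) → E} (G : Germs ℂ_[p] E D0 T) {f : ℂ_[p] → ℂ_[p]}
    (hf : AnalyticAt ℂ_[p] f 0) (hf0 : f 0 ≠ 0) :
    AnalyticAt ℂ_[p] (fun s => L (f s)) 0 ∧ T f ≠ 0 ∧
      D0 (T fun s => L (f s)) = D0 (T f) / T f := by
  have hLOG := Pool.Agent.W398.LF.t_LOG p L hL
  have han : AnalyticAt ℂ_[p] (fun s => L (f s)) 0 :=
    AnalyticAt.fun_comp (f := fun s => f s) (g := L) ((hLOG _ hf0).1) hf
  have hTf0 : T f ≠ 0 := fun h0 => hf0 (G.zero _ hf h0).self_of_nhds
  refine ⟨han, hTf0, ?_⟩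
  have h1 : ∀ᶠ s in 𝓝 (0 : ℂ_[p]), deriv (fun s => L (f s)) s * f s = deriv f s := by
    have hne : ∀ᶠ s in 𝓝 (0 : ℂ_[p]), f s ≠ 0 := hf.continuousAt.eventually_ne hf0
    filter_upwards [hne, hf.eventually_analyticAt] with s hs1 hs2
    have h3 : HasDerivAt (fun s => L (f s)) ((f s)⁻¹ * deriv f s) s :=
      HasDerivAt.comp s (h₂ := L) ((hLOG _ hs1).2) (hs2.differentiableAt.hasDerivAt)
    rw [h3.deriv]
    field_simp
  have h4 := G.congr _ _ h1
  rw [G.mul _ _ han.deriv hf, G.deriv _ han] at h4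
  have h5 : T (fun s => deriv f s) = D0 (T f) := G.deriv _ hf
  rw [h5] at h4
  rw [eq_div_iff hTf0, h4]

lemma Germs.sum {K : Type} [NontriviallyNormedField K] {E : Type} [Field E] [Algebra K E]
    {D0 : Derivation K E E} {T : (K → K) → E} (G : Germs K E D0 T) {S : Type} (I : Finset S)
    (f : S → K → K) (hf : ∀ s, AnalyticAt K (f s) 0) :
    AnalyticAt K (fun x => ∑ s ∈ I, f s x) 0 ∧ T (fun x => ∑ s ∈ I, f s x) = ∑ s ∈ I, T (f s) := by
  classical
  induction I using Finset.induction_on with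
  | empty =>
    simp only [Finset.sum_empty]
    exact ⟨analyticAt_const, by rw [G.c, map_zero]⟩
  | insert a I ha ih =>
    have e : (fun x => ∑ s ∈ insert a I, f s x) = fun x => f a x + ∑ s ∈ I, f s x := by
      funext x
      rw [Finset.sum_insert ha]
    rw [e, Finset.sum_insert ha]
    exact ⟨(hf a).add ih.1, by rw [G.add _ _ (hf a) ih.1, ih.2]⟩

/-- **Core.** `Λ_ij = ∑_s c_s L(f_s,ij)` where, up to a factor which does not depend on `s`, the
germ of `f_s,ij` is `V_s,ij`. -/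
theorem core {p : ℕ} [Fact p.Prime] {L : ℂ_[p] → ℂ_[p]} (hL : IsIwasawaLog p L) {d : ℕ}
    {S : Type} [Fintype S] (c : S → ℂ_[p]) (hc : ∑ s, c s = 0)
    {E : Type} [Field E] [Algebra ℂ_[p] E] {D0 : Derivation ℂ_[p] E E}
    {T : (ℂ_[p] → ℂ_[p]) → E} (G : Germs ℂ_[p] E D0 T) (DE : Derivation ℂ_[p] E E) (e : E)
    (hDE : ∀ z, DE z = e * D0 z)
    (V : S → Fin d → Fin d → E) (W : Fin d → Fin d → E) (hW : ∀ i j, W i j ≠ 0)
    (hV : ∀ s i j, V s i j ≠ 0)
    (hfun : ∀ Λ : Matrix (Fin d) (Fin d) E,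
      (∀ i j, DE (Λ i j) = ∑ s, algebraMap ℂ_[p] E (c s) * (DE (V s i j) / V s i j)) → Λ.det ≠ 0)
    (f : S → Fin d → Fin d → ℂ_[p] → ℂ_[p]) (hf : ∀ s i j, AnalyticAt ℂ_[p] (f s i j) 0)
    (hf0 : ∀ s i j, f s i j 0 ≠ 0) (hfE : ∀ s i j, T (f s i j) = W i j * V s i j) :
    ∀ᶠ x in 𝓝[≠] (0 : ℂ_[p]),
      (Matrix.of fun i j : Fin d => ∑ s, c s * L (f s i j x)).det ≠ 0 := by
  classical
  have hcz : CharZero E := charZero_of_injective_algebraMap (algebraMap ℂ_[p] E).injective
  have han : ∀ s i j, AnalyticAt ℂ_[p] (fun x => c s * L (f s i j x)) 0 := fun s i j =>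
    analyticAt_const.mul (log_deriv hL G (hf s i j) (hf0 s i j)).1
  have hyan : ∀ i j, AnalyticAt ℂ_[p] (fun x => ∑ s, c s * L (f s i j x)) 0 := fun i j =>
    (Germs.sum G Finset.univ (fun s x => c s * L (f s i j x)) fun s => han s i j).1
  set Λ : Matrix (Fin d) (Fin d) E := Matrix.of fun i j => T fun x => ∑ s, c s * L (f s i j x)
    with hΛ
  have hdet : Λ.det ≠ 0 := by
    apply hfun Λ
    intro i j
    have h1 : Λ i j = ∑ s, algebraMap ℂ_[p] E (c s) * T (fun x => L (f s i j x)) := by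
      change T (fun x => ∑ s, c s * L (f s i j x)) = _
      rw [(Germs.sum G Finset.univ (fun s x => c s * L (f s i j x)) fun s => han s i j).2]
      refine Finset.sum_congr rfl fun s _ => ?_
      rw [G.mul (fun _ => c s) (fun x => L (f s i j x)) analyticAt_const
        (log_deriv hL G (hf s i j) (hf0 s i j)).1, G.c]
    have h2 : ∀ s, DE (T fun x => L (f s i j x)) = DE (W i j) / W i j + DE (V s i j) / V s i j := by
      intro s
      obtain ⟨-, -, h4⟩ := log_deriv hL G (hf s i j) (hf0 s i j)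
      rw [hDE, hDE, hDE, h4, hfE, Derivation.leibniz]
      have := hW i j
      have := hV s i j
      simp only [smul_eq_mul]
      field_simp
      ring
    rw [h1, map_sum]
    have h3 : ∀ s, DE (algebraMap ℂ_[p] E (c s) * T (fun x => L (f s i j x))) =
        algebraMap ℂ_[p] E (c s) * (DE (W i j) / W i j) +
          algebraMap ℂ_[p] E (c s) * (DE (V s i j) / V s i j) := by
      intro s
      rw [Derivation.leibniz, Derivation.map_algebraMap, smul_zero, add_zero, smul_eq_mul, h2,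
        mul_add]
    rw [Finset.sum_congr rfl fun s _ => h3 s, Finset.sum_add_distrib, ← Finset.sum_mul,
      ← map_sum, hc, map_zero, zero_mul, zero_add]
  let YA : Matrix (Fin d) (Fin d) (anal ℂ_[p]) := Matrix.of fun i j => ⟨_, hyan i j⟩
  have hYA : G.hom YA.det = Λ.det := by
    rw [RingHom.map_det]
    rfl
  have hdval : ∀ x, (YA.det).1 x =
      (Matrix.of fun i j : Fin d => ∑ s, c s * L (f s i j x)).det := by
    intro x
    have h3 := RingHom.map_det
      ((Pi.evalRingHom (fun _ : ℂ_[p] => ℂ_[p]) x).comp (anal ℂ_[p]).subtype) YA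
    exact h3
  rcases (YA.det).2.eventually_eq_zero_or_eventually_ne_zero with h | h
  · exfalso
    apply hdet
    rw [← hYA]
    have h1 : T YA.det.1 = T (fun _ => (0 : ℂ_[p])) := G.congr _ _ h
    rw [G.hom_apply, h1, G.c, map_zero]
  · filter_upwards [h] with x hx
    rw [← hdval]
    exact hx

end Pool.Agent.H76.KF
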