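import Mathlib
import Pool.Graph.R_seed8.W332.SL6.Main

set_option autoImplicit false

/-!
# A criterion for the `Σ`-Leopoldt statement for arbitrary characters
-/

namespace Pool.Agent.H76.KF

open NumberField TensorProduct
open Pool.Agent.W289.SL Pool.Agent.W332.SL6

variable {p : ℕ} [Fact p.Prime]

section

variable {K H : Type} [Field K] [NumberField K] [IsTotallyComplex K] [Field H] [NumberField H]
  [Algebra K H] [IsGalois K H]

omit [IsTotallyComplex K] in
/-- an element of the `χ`-part is determined by the real logarithms at one embedding above each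
infinite place of `K` -/
lemma eq_zero_of_places (θ : ℂ_[p] ≃+* ℂ) {χ : (H ≃ₐ[K] H) →* ℂ_[p]ˣ} {z : UM p H}
    (hz : InChi χ z) (s : InfinitePlace K → (H →+* ℂ))
    (hs : ∀ v, InfinitePlace.mk ((s v).comp (algebraMap K H)) = v)
    (h : ∀ v, lam θ (s v) z = 0) : z = 0 := by
  refine eq_zero_of_lam θ z fun t => ?_
  set v : InfinitePlace K := InfinitePlace.mk (t.comp (algebraMap K H)) with hv
  have h1 : InfinitePlace.mk ((s v).comp (algebraMap K H)) =
      InfinitePlace.mk (t.comp (algebraMap K H)) := by rw [hs v]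
  rcases InfinitePlace.mk_eq_iff.1 h1 with h2 | h2
  · obtain ⟨g, hg⟩ := exists_aut t (s v) h2.symm
    rw [hg, lam_inChi θ hz, h, mul_zero]
  · have h3 : ((starRingEnd ℂ).comp t).comp (algebraMap K H) = (s v).comp (algebraMap K H) := by
      ext x
      have h4 := RingHom.congr_fun h2 x
      rw [ComplexEmbedding.conjugate_coe_eq] at h4
      change (starRingEnd ℂ) (t (algebraMap K H x)) = s v (algebraMap K H x)
      have h5 : (starRingEnd ℂ) ((s v) (algebraMap K H x)) = t (algebraMap K H x) := h4
      rw [← h5, Complex.conj_conj]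
    obtain ⟨g, hg⟩ := exists_aut _ (s v) h3
    rw [← lam_conj, hg, lam_inChi θ hz, h, mul_zero]

/-- **Criterion.** -/
theorem criterion (d : ℕ) (hd : Module.finrank ℚ K = 2 * d) (χ : (H ≃ₐ[K] H) →* ℂ_[p]ˣ)
    (x : Fin d → UM p H) (hx : ∀ i, InChi χ (x i)) {L : ℂ_[p] → ℂ_[p]} (hL : IsIwasawaLog p L)
    (σ : Fin d → (H →+* ℂ_[p]))
    (hdet : (Matrix.of fun i j => logLin hL (σ j) (x i)).det ≠ 0)
    (z : UM p H) (hz : InChi χ z) (hz0 : ∀ j, logLin hL (σ j) z = 0) : z = 0 := by
  classical
  obtain ⟨θ⟩ := Pool.Agent.W254.PA.exists_theta p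
  -- the number of places
  have hcard : Fintype.card (InfinitePlace K) = d := by
    have h1 := InfinitePlace.card_eq_nrRealPlaces_add_nrComplexPlaces K
    have h2 := IsTotallyComplex.nrRealPlaces_eq_zero K
    have h3 := IsTotallyComplex.finrank K
    omega
  have hex : ∀ v : InfinitePlace K, ∃ s : H →+* ℂ,
      InfinitePlace.mk (s.comp (algebraMap K H)) = v := by
    intro v
    let := v.embedding.toAlgebra
    have : Algebra.IsAlgebraic K H := Algebra.IsAlgebraic.tower_top (K := ℚ) K
    let φ : H →ₐ[K] ℂ := IsAlgClosed.lift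
    refine ⟨φ, ?_⟩
    have h1 : ((φ : H →+* ℂ).comp (algebraMap K H)) = v.embedding := φ.comp_algebraMap
    rw [h1, InfinitePlace.mk_embedding]
  choose s hs using hex
  set e : Fin d ≃ InfinitePlace K := (Fintype.equivFinOfCardEq hcard).symm with he
  -- the linear map
  have hcombo : ∀ (c : Fin d → ℂ_[p]) (c0 : ℂ_[p]),
      InChi χ ((∑ i, c i • x i) + c0 • z) := by
    intro c c0 τ
    rw [map_add, map_sum, map_smul, smul_add, Finset.smul_sum, hz τ, smul_comm]
    congr 1
    refine Finset.sum_congr rfl fun i _ => ?_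
    rw [map_smul, hx i τ, smul_comm]
  -- the matrix of real logarithms is nonsingular
  set A : Matrix (Fin d) (Fin d) ℂ_[p] := Matrix.of fun i v => lam θ (s (e v)) (x i) with hA
  have hAdet : A.det ≠ 0 := by
    intro h0
    obtain ⟨c, hc0, hc⟩ := Matrix.exists_vecMul_eq_zero_iff.2 h0
    apply hc0
    have h1 : ∑ i, c i • x i = 0 := by
      have h2 := hcombo c 0
      rw [zero_smul, add_zero] at h2
      refine eq_zero_of_places θ h2 s hs fun v => ?_
      obtain ⟨v, rfl⟩ := e.surjective v
      have h3 := congrFun hc v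
      rw [Matrix.vecMul, dotProduct] at h3
      rw [map_sum]
      rw [Pi.zero_apply] at h3
      rw [← h3]
      refine Finset.sum_congr rfl fun i _ => ?_
      rw [map_smul, smul_eq_mul]
      rfl
    have h2 : Matrix.vecMul c (Matrix.of fun i j => logLin hL (σ j) (x i)) = 0 := by
      funext j
      rw [Matrix.vecMul, dotProduct, Pi.zero_apply]
      have h3 := congrArg (logLin hL (σ j)) h1
      rw [map_sum, map_zero] at h3
      rw [← h3]
      refine Finset.sum_congr rfl fun i _ => ?_
      rw [map_smul, smul_eq_mul]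
      rfl
    exact Matrix.eq_zero_of_vecMul_eq_zero hdet h2
  -- express `z`
  obtain ⟨c, hc⟩ : ∃ c : Fin d → ℂ_[p], Matrix.vecMul c A = fun v => -lam θ (s (e v)) z := by
    have hu : IsUnit A := (Matrix.isUnit_iff_isUnit_det A).2 (isUnit_iff_ne_zero.2 hAdet)
    have := Matrix.vecMul_surjective_iff_isUnit.2 hu
    exact this _
  have h1 : (∑ i, c i • x i) + z = 0 := by
    have h2 := hcombo c 1
    rw [one_smul] at h2
    refine eq_zero_of_places θ h2 s hs fun v => ?_
    obtain ⟨v, rfl⟩ := e.surjective v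
    have h3 := congrFun hc v
    rw [Matrix.vecMul, dotProduct] at h3
    rw [map_add, map_sum]
    have h4 : ∑ i, lam θ (s (e v)) (c i • x i) = ∑ i, c i * A i v := by
      refine Finset.sum_congr rfl fun i _ => ?_
      rw [map_smul, smul_eq_mul]
      rfl
    rw [h4, h3, neg_add_cancel]
  have h2 : c = 0 := by
    apply Matrix.eq_zero_of_vecMul_eq_zero hdet
    funext j
    rw [Matrix.vecMul, dotProduct, Pi.zero_apply]
    have h3 := congrArg (logLin hL (σ j)) h1
    rw [map_add, map_sum, map_zero, hz0, add_zero] at h3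
    rw [← h3]
    refine Finset.sum_congr rfl fun i _ => ?_
    rw [map_smul, smul_eq_mul]
    rfl
  rw [h2] at h1
  simpa using h1

end

end Pool.Agent.H76.KF
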