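import Mathlib
import Pool.Graph.R_seed8.Y789.SG.NonSqC
import Pool.Graph.R_seed8.Y789.SG.NonSq

set_option autoImplicit false

/-!
# Polynomials in `T` which are cubes in the integers of an imaginary quadratic field
-/

namespace Pool.Agent.H76.KF

open NumberField
open Pool.Agent.Y789.SG (place_unit place_ge conj_ne quadC prod_emb conj_comp)

/-- a number close to a cube -/
lemma three_cubes {ω : ℂ} (hω : ω ^ 2 + ω + 1 = 0) (X Y : ℂ) :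
    ∃ j : ℕ, ‖ω ^ j * X - Y‖ * (3 / 4 * ‖X‖ ^ 2) ≤ ‖X ^ 3 - Y ^ 3‖ := by
  have hω3 : ω ^ 3 = 1 := by linear_combination (ω - 1) * hω
  have hn : ‖ω‖ = 1 := by
    have h1 : ‖ω‖ ^ 3 = 1 := by rw [← norm_pow, hω3, norm_one]
    exact (pow_eq_one_iff_of_nonneg (norm_nonneg _) (by norm_num)).1 h1
  have hconj : (starRingEnd ℂ) ω = ω ^ 2 := by
    have h1 : ω * (starRingEnd ℂ) ω = 1 := by
      rw [Complex.mul_conj, Complex.normSq_eq_norm_sq, hn]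
      norm_num
    have hω0 : ω ≠ 0 := by
      rintro rfl
      norm_num at hω3
    apply mul_left_cancel₀ hω0
    rw [h1]
    linear_combination -hω3
  have h3 : ‖1 - ω‖ ^ 2 = 3 := by
    have h1 : ((‖1 - ω‖ ^ 2 : ℝ) : ℂ) = 3 := by
      rw [← Complex.normSq_eq_norm_sq, ← Complex.mul_conj, map_sub, map_one, hconj]
      linear_combination -hω + hω3
    exact_mod_cast h1
  set n0 := ‖X - Y‖ with hn0
  set n1 := ‖ω * X - Y‖ with hn1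
  set n2 := ‖ω ^ 2 * X - Y‖ with hn2
  have hprod : ‖X ^ 3 - Y ^ 3‖ = n0 * n1 * n2 := by
    rw [hn0, hn1, hn2, ← norm_mul, ← norm_mul]
    congr 1
    linear_combination (X ^ 2 * Y * ω - X * Y ^ 2) * hω + (-X ^ 3) * hω3
  have e01 : 3 * ‖X‖ ^ 2 ≤ (n0 + n1) ^ 2 := by
    have h1 : ‖1 - ω‖ * ‖X‖ ≤ n0 + n1 := by
      rw [← norm_mul]
      have : (1 - ω) * X = (X - Y) - (ω * X - Y) := by ring
      rw [this]
      exact norm_sub_le _ _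
    calc 3 * ‖X‖ ^ 2 = (‖1 - ω‖ * ‖X‖) ^ 2 := by rw [mul_pow, h3]
      _ ≤ _ := pow_le_pow_left₀ (by positivity) h1 2
  have e12 : 3 * ‖X‖ ^ 2 ≤ (n1 + n2) ^ 2 := by
    have h1 : ‖1 - ω‖ * ‖X‖ ≤ n1 + n2 := by
      rw [← norm_mul]
      have h2 : ω * ((1 - ω) * X) = (ω * X - Y) - (ω ^ 2 * X - Y) := by ring
      have h4 : ‖(1 - ω) * X‖ = ‖ω * ((1 - ω) * X)‖ := by rw [norm_mul ω, hn, one_mul]
      rw [h4, h2]
      exact norm_sub_le _ _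
    calc 3 * ‖X‖ ^ 2 = (‖1 - ω‖ * ‖X‖) ^ 2 := by rw [mul_pow, h3]
      _ ≤ _ := pow_le_pow_left₀ (by positivity) h1 2
  have e02 : 3 * ‖X‖ ^ 2 ≤ (n0 + n2) ^ 2 := by
    have h1 : ‖1 - ω‖ * ‖X‖ ≤ n0 + n2 := by
      rw [← norm_mul]
      have h2 : ω ^ 2 * ((1 - ω) * X) = (ω ^ 2 * X - Y) - (X - Y) := by
        linear_combination -X * hω3
      have h4 : ‖(1 - ω) * X‖ = ‖ω ^ 2 * ((1 - ω) * X)‖ := by
        rw [norm_mul (ω ^ 2), norm_pow, hn, one_pow, one_mul]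
      rw [h4, h2, add_comm]
      exact norm_sub_le _ _
    calc 3 * ‖X‖ ^ 2 = (‖1 - ω‖ * ‖X‖) ^ 2 := by rw [mul_pow, h3]
      _ ≤ _ := pow_le_pow_left₀ (by positivity) h1 2
  have p0 : 0 ≤ n0 := norm_nonneg _
  have p1 : 0 ≤ n1 := norm_nonneg _
  have p2 : 0 ≤ n2 := norm_nonneg _
  have key : ∀ a b c : ℝ, 0 ≤ a → 0 ≤ b → 0 ≤ c → a ≤ b → a ≤ c → 3 * ‖X‖ ^ 2 ≤ (a + b) ^ 2 →
      3 * ‖X‖ ^ 2 ≤ (a + c) ^ 2 → a * (3 / 4 * ‖X‖ ^ 2) ≤ a * (b * c) := by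
    intro a b c ha hb hc hab hac h1 h2
    apply mul_le_mul_of_nonneg_left _ ha
    have h4 : 3 / 4 * ‖X‖ ^ 2 ≤ b ^ 2 := by nlinarith
    have h5 : 3 / 4 * ‖X‖ ^ 2 ≤ c ^ 2 := by nlinarith
    have h6 : (3 / 4 * ‖X‖ ^ 2) ^ 2 ≤ (b * c) ^ 2 := by
      rw [mul_pow b c, sq (3 / 4 * ‖X‖ ^ 2)]
      exact mul_le_mul h4 h5 (by positivity) (by positivity)
    exact abs_le_of_sq_le_sq' h6 (by positivity) |>.2
  rw [hprod]
  by_cases h01 : n0 ≤ n1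
  · by_cases h02 : n0 ≤ n2
    · refine ⟨0, ?_⟩
      rw [pow_zero, one_mul, mul_assoc n0]
      exact key n0 n1 n2 p0 p1 p2 h01 h02 e01 e02
    · push Not at h02
      refine ⟨2, ?_⟩
      have := key n2 n0 n1 p2 p0 p1 h02.le (h02.le.trans h01) (by rw [add_comm]; exact e02)
        (by rw [add_comm]; exact e12)
      calc _ ≤ n2 * (n0 * n1) := this
        _ = _ := by ring
  · push Not at h01
    by_cases h12 : n1 ≤ n2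
    · refine ⟨1, ?_⟩
      rw [pow_one]
      have := key n1 n0 n2 p1 p0 p2 h01.le h12 (by rw [add_comm]; exact e01) e12
      calc _ ≤ n1 * (n0 * n2) := this
        _ = _ := by ring
    · push Not at h12
      refine ⟨2, ?_⟩
      have := key n2 n0 n1 p2 p0 p1 (h12.le.trans h01.le) h12.le (by rw [add_comm]; exact e02)
        (by rw [add_comm]; exact e12)
      calc _ ≤ n2 * (n0 * n1) := this
        _ = _ := by ring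

section

variable {R : Type} [CommRing R] (ψ : R →+* ℂ) (hψ : ∀ x : R, x ≠ 0 → 1 ≤ ‖ψ x‖)

include hψ in
lemma vanish (x2 x1 x0 : R) (T : ℤ) (G : ℝ) (h : (T : R) ^ 2 * x2 + T * x1 + x0 = 0)
    (h1 : ‖ψ x1‖ ≤ G) (h0 : ‖ψ x0‖ ≤ G) (hT : 2 * G + 2 < |(T : ℝ)|) :
    x2 = 0 ∧ x1 = 0 ∧ x0 = 0 := by
  have hG : 0 ≤ G := (norm_nonneg _).trans h1
  have hTn : ‖(T : ℂ)‖ = |(T : ℝ)| := by simp
  have e : (T : ℂ) ^ 2 * ψ x2 + T * ψ x1 + ψ x0 = 0 := by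
    have := congrArg ψ h
    simpa only [map_add, map_mul, map_pow, map_intCast, map_zero] using this
  have hx2 : x2 = 0 := by
    by_contra hne
    have h2 := hψ x2 hne
    have h3 : (T : ℂ) ^ 2 * ψ x2 = -(T * ψ x1 + ψ x0) := by linear_combination e
    have h4 := congrArg norm h3
    rw [norm_mul, norm_pow, hTn, norm_neg] at h4
    have h5 : ‖(T : ℂ) * ψ x1 + ψ x0‖ ≤ |(T : ℝ)| * G + G := by
      refine (norm_add_le _ _).trans ?_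
      rw [norm_mul, hTn]
      gcongr
    nlinarith
  rw [hx2, map_zero, mul_zero, zero_add] at e
  have hx1 : x1 = 0 := by
    by_contra hne
    have h2 := hψ x1 hne
    have h3 : (T : ℂ) * ψ x1 = -ψ x0 := by linear_combination e
    have h4 := congrArg norm h3
    rw [norm_mul, hTn, norm_neg] at h4
    nlinarith
  refine ⟨hx2, hx1, ?_⟩
  rw [hx2, hx1] at h
  simpa using h

include hψ in
/-- **Cubes.** -/
theorem cubes {ω : R} (hω : ω ^ 2 + ω + 1 = 0) (κ e2 e1 e0 : R) (hκ : κ ≠ 0) :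
    ∃ M : ℤ, ∀ T : ℤ, M ≤ |T| → ∀ X : R,
      X ^ 3 = (T * κ) ^ 3 + T ^ 2 * e2 + T * e1 + e0 →
      ∃ η : R, 3 * κ ^ 2 * η = e2 ∧ 3 * κ * η ^ 2 = e1 ∧ η ^ 3 = e0 := by
  set G : ℝ := 1 + ‖ψ e2‖ + ‖ψ e1‖ + ‖ψ e0‖ with hG
  have q2 := norm_nonneg (ψ e2)
  have q1 := norm_nonneg (ψ e1)
  have q0 := norm_nonneg (ψ e0)
  have hG1 : 1 ≤ G := by linarith
  have b2 : ‖ψ e2‖ ≤ G := by linarith
  have b1 : ‖ψ e1‖ ≤ G := by linarith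
  have b0 : ‖ψ e0‖ ≤ G := by linarith
  clear_value G
  set G' : ℝ := 3 * ‖ψ κ‖ * (16 * G) ^ 2 + (16 * G) ^ 3 + G with hG'
  have hG'0 : 0 ≤ G' := by positivity
  obtain ⟨M, hM⟩ := exists_int_gt (2 * G' + 6 * G + 3)
  refine ⟨M, ?_⟩
  intro T hT X hX
  have hTR : (2 * G' + 6 * G + 3) < |(T : ℝ)| := by
    have : (M : ℝ) ≤ |(T : ℝ)| := by exact_mod_cast hT
    linarith
  have hTn : ‖(T : ℂ)‖ = |(T : ℝ)| := by simp
  obtain ⟨τ, hτ⟩ : ∃ τ : ℝ, τ = |(T : ℝ)| := ⟨_, rfl⟩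
  rw [← hτ] at hTR hTn
  have hτ1 : 1 ≤ τ := by linarith
  have hτ0 : 0 < τ := by linarith
  have hωC : (ψ ω) ^ 2 + ψ ω + 1 = 0 := by
    have := congrArg ψ hω
    simpa only [map_add, map_pow, map_one, map_zero] using this
  have hXC : (ψ X) ^ 3 - (T * ψ κ) ^ 3 = T ^ 2 * ψ e2 + T * ψ e1 + ψ e0 := by
    have := congrArg ψ hX
    simp only [map_add, map_mul, map_pow, map_intCast] at this
    rw [this]
    ring
  have hE : ‖(ψ X) ^ 3 - (T * ψ κ) ^ 3‖ ≤ 3 * G * τ ^ 2 := by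
    rw [hXC]
    refine (norm_add₃_le).trans ?_
    rw [norm_mul, norm_mul, norm_pow, hTn]
    have c1 : τ * ‖ψ e1‖ ≤ τ ^ 2 * G := by
      calc τ * ‖ψ e1‖ ≤ τ * G := by gcongr
        _ ≤ τ ^ 2 * G := by nlinarith
    have c2 : τ ^ 2 * ‖ψ e2‖ ≤ τ ^ 2 * G := by gcongr
    have c0 : ‖ψ e0‖ ≤ τ ^ 2 * G := by nlinarith
    linarith
  have hκ1 := hψ κ hκ
  -- the size of `X`
  have hXn : τ / 2 ≤ ‖ψ X‖ := by
    by_contra hcon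
    push Not at hcon
    have h1 : ‖(T * ψ κ : ℂ)‖ ^ 3 ≤ ‖ψ X‖ ^ 3 + 3 * G * τ ^ 2 := by
      rw [← norm_pow, ← norm_pow]
      have h2 : ((T : ℂ) * ψ κ) ^ 3 = ψ X ^ 3 - (ψ X ^ 3 - (T * ψ κ) ^ 3) := by ring
      calc ‖((T : ℂ) * ψ κ) ^ 3‖ = ‖ψ X ^ 3 - (ψ X ^ 3 - (T * ψ κ) ^ 3)‖ := by rw [← h2]
        _ ≤ ‖ψ X ^ 3‖ + ‖ψ X ^ 3 - (T * ψ κ) ^ 3‖ := norm_sub_le _ _
        _ ≤ _ := by gcongr
    have h2 : τ ^ 3 ≤ ‖(T * ψ κ : ℂ)‖ ^ 3 := by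
      rw [norm_mul, hTn]
      apply pow_le_pow_left₀ hτ0.le
      nlinarith
    have h3 : ‖ψ X‖ ^ 3 ≤ (τ / 2) ^ 3 := pow_le_pow_left₀ (norm_nonneg _) hcon.le 3
    have h4 : τ ^ 3 ≤ (τ / 2) ^ 3 + 3 * G * τ ^ 2 := by linarith
    have h6 : 0 < 7 / 8 * τ - 3 * G := by linarith
    have h7 : 0 < τ ^ 2 := by positivity
    have h8 : 0 < τ ^ 2 * (7 / 8 * τ - 3 * G) := mul_pos h7 h6
    have h9 : τ ^ 2 * (7 / 8 * τ - 3 * G) = τ ^ 3 - (τ / 2) ^ 3 - 3 * G * τ ^ 2 := by ring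
    linarith
  obtain ⟨j, hj⟩ := three_cubes hωC (ψ X) (T * ψ κ)
  obtain ⟨η, hη⟩ : ∃ η : R, η = ω ^ j * X - T * κ := ⟨_, rfl⟩
  have hηC : ψ η = ψ ω ^ j * ψ X - T * ψ κ := by
    rw [hη]
    simp only [map_sub, map_mul, map_pow, map_intCast]
  have hηn : ‖ψ η‖ ≤ 16 * G := by
    rw [← hηC] at hj
    have h1 : ‖ψ η‖ * (3 / 4 * ‖ψ X‖ ^ 2) ≤ 3 * G * τ ^ 2 := hj.trans hE
    have h2 : (τ / 2) ^ 2 ≤ ‖ψ X‖ ^ 2 := pow_le_pow_left₀ (by linarith) hXn 2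
    have h3 : ‖ψ η‖ * (3 / 4 * (τ / 2) ^ 2) ≤ ‖ψ η‖ * (3 / 4 * ‖ψ X‖ ^ 2) := by gcongr
    have h4 : ‖ψ η‖ * (3 / 16) * τ ^ 2 ≤ 3 * G * τ ^ 2 := by
      have : ‖ψ η‖ * (3 / 16) * τ ^ 2 = ‖ψ η‖ * (3 / 4 * (τ / 2) ^ 2) := by ring
      rw [this]
      exact h3.trans h1
    have h5 : ‖ψ η‖ * (3 / 16) ≤ 3 * G := le_of_mul_le_mul_right h4 (by positivity)
    linarith
  have hω3 : ω ^ 3 = 1 := by linear_combination (ω - 1) * hω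
  have hX3 : (T * κ + η) ^ 3 = X ^ 3 := by
    rw [hη]
    have h1 : (T * κ + (ω ^ j * X - T * κ) : R) = ω ^ j * X := by ring
    rw [h1, mul_pow, ← pow_mul, mul_comm j, pow_mul, hω3, one_pow, one_mul]
  have hrel : (T : R) ^ 2 * (3 * κ ^ 2 * η - e2) + T * (3 * κ * η ^ 2 - e1) + (η ^ 3 - e0) = 0 := by
    linear_combination hX3 + hX
  have n1 : ‖ψ (3 * κ * η ^ 2 - e1)‖ ≤ G' := by
    have h1 : ψ (3 * κ * η ^ 2 - e1) = 3 * ψ κ * ψ η ^ 2 - ψ e1 := by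
      simp only [map_sub, map_mul, map_pow, map_ofNat]
    rw [h1]
    refine (norm_sub_le _ _).trans ?_
    rw [norm_mul, norm_mul, norm_pow]
    have h2 : ‖(3 : ℂ)‖ = 3 := by norm_num
    rw [h2]
    have h3 : 3 * ‖ψ κ‖ * ‖ψ η‖ ^ 2 ≤ 3 * ‖ψ κ‖ * (16 * G) ^ 2 := by gcongr
    have h4 : 0 ≤ (16 * G) ^ 3 := by positivity
    rw [hG']
    linarith
  have n0 : ‖ψ (η ^ 3 - e0)‖ ≤ G' := by
    have h1 : ψ (η ^ 3 - e0) = ψ η ^ 3 - ψ e0 := by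
      simp only [map_sub, map_pow]
    rw [h1]
    refine (norm_sub_le _ _).trans ?_
    rw [norm_pow]
    have h3 : ‖ψ η‖ ^ 3 ≤ (16 * G) ^ 3 := by gcongr
    have h4 : 0 ≤ 3 * ‖ψ κ‖ * (16 * G) ^ 2 := by positivity
    rw [hG']
    linarith
  obtain ⟨a1, a2, a3⟩ := vanish ψ hψ _ _ _ T G' hrel n1 n0 (by rw [← hτ]; linarith)
  exact ⟨η, sub_eq_zero.1 a1, sub_eq_zero.1 a2, sub_eq_zero.1 a3⟩

end

end Pool.Agent.H76.KF
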