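import Mathlib

set_option autoImplicit false

/-!
# Many integral points on `X Y (X - Y) = C`
-/

namespace Pool.Agent.H76.KF

/-- duplication on the cubic `x y (x - y) = -12 z³` -/
def step (s : ℤ × ℤ × ℤ) : ℤ × ℤ × ℤ :=
  (s.1 * (s.1 - 2 * s.2.1) ^ 3, -s.2.1 * (2 * s.1 - s.2.1) ^ 3,
    s.2.2 * ((2 * s.1 - s.2.1) * (2 * s.2.1 - s.1) * (s.1 + s.2.1)))

/-- the multiples `2^n P` of the point `P = (1, 4)` -/
def pt : ℕ → ℤ × ℤ × ℤ
  | 0 => (1, 4, 1)
  | n + 1 => step (pt n)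

lemma pt_spec (n : ℕ) : Odd (pt n).1 ∧ (4 : ℤ) ∣ (pt n).2.1 ∧ (pt n).2.2 ≠ 0 ∧
    (pt n).1 * (pt n).2.1 * ((pt n).1 - (pt n).2.1) = -12 * (pt n).2.2 ^ 3 := by
  induction n with
  | zero => refine ⟨by decide, by decide, by decide, by decide⟩
  | succ n ih =>
    obtain ⟨h1, h2, h3, h4⟩ := ih
    set x := (pt n).1
    set y := (pt n).2.1
    set z := (pt n).2.2
    have e1 : (pt (n + 1)).1 = x * (x - 2 * y) ^ 3 := rfl
    have e2 : (pt (n + 1)).2.1 = -y * (2 * x - y) ^ 3 := rfl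
    have e3 : (pt (n + 1)).2.2 = z * ((2 * x - y) * (2 * y - x) * (x + y)) := rfl
    rw [e1, e2, e3]
    obtain ⟨y', hy'⟩ := h2
    refine ⟨?_, ?_, ?_, ?_⟩
    · apply h1.mul
      apply Odd.pow
      exact h1.sub_even (even_two_mul y)
    · rw [hy']
      exact ⟨-y' * (2 * x - 4 * y') ^ 3, by ring⟩
    · have n1 : 2 * x - y ≠ 0 := by
        intro h
        obtain ⟨r, hr⟩ := h1
        omega
      have n2 : 2 * y - x ≠ 0 := by
        intro h
        obtain ⟨r, hr⟩ := h1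
        omega
      have n3 : x + y ≠ 0 := by
        intro h
        obtain ⟨r, hr⟩ := h1
        omega
      exact mul_ne_zero h3 (mul_ne_zero (mul_ne_zero n1 n2) n3)
    · linear_combination ((2 * x - y) * (2 * y - x) * (x + y)) ^ 3 * h4

lemma pt_quot (m j : ℕ) : ∃ o : ℤ, Odd o ∧ (pt (m + j)).2.2 = (pt m).2.2 * (2 ^ j * o) := by
  induction j with
  | zero => exact ⟨1, odd_one, by simp⟩
  | succ j ih =>
    obtain ⟨o, ho, h⟩ := ih
    obtain ⟨h1, ⟨y', hy'⟩, -, -⟩ := pt_spec (m + j)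
    have e3 : (pt (m + (j + 1))).2.2 = (pt (m + j)).2.2 *
      ((2 * (pt (m + j)).1 - (pt (m + j)).2.1) * (2 * (pt (m + j)).2.1 - (pt (m + j)).1) *
        ((pt (m + j)).1 + (pt (m + j)).2.1)) := rfl
    refine ⟨o * (((pt (m + j)).1 - 2 * y') * (2 * (pt (m + j)).2.1 - (pt (m + j)).1) *
        ((pt (m + j)).1 + (pt (m + j)).2.1)), ?_, ?_⟩
    · apply ho.mul
      apply Odd.mul
      · apply Odd.mul
        · exact h1.sub_even (even_two_mul y')
        · exact (even_two_mul _).sub_odd h1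
      · rw [hy']
        exact h1.add_even ⟨2 * y', by ring⟩
    · rw [e3, h, hy']
      ring

/-- **Points.** -/
theorem points (n : ℕ) : ∃ (X Y : Fin n → ℤ) (C : ℤ), C ≠ 0 ∧
    (∀ i, X i * Y i * (X i - Y i) = C) ∧ (∀ i, X i ≠ 0) ∧
    Function.Injective fun i => X i ^ 3 + Y i ^ 3 - 3 * X i * Y i ^ 2 := by
  choose o ho hq using fun i : Fin n => pt_quot (i : ℕ) (n - i)
  have hn : ∀ i : Fin n, (i : ℕ) + (n - i) = n := fun i => by have := i.2; omega
  simp only [hn] at hq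
  refine ⟨fun i => (pt i).1 * (2 ^ (n - (i : ℕ)) * o i),
    fun i => (pt i).2.1 * (2 ^ (n - (i : ℕ)) * o i), -12 * (pt n).2.2 ^ 3, ?_, ?_, ?_, ?_⟩
  · exact mul_ne_zero (by norm_num) (pow_ne_zero _ (pt_spec n).2.2.1)
  · intro i
    have h4 := (pt_spec i).2.2.2
    rw [hq i]
    linear_combination (2 ^ (n - (i : ℕ)) * o i) ^ 3 * h4
  · intro i
    have h1 := (pt_spec i).1
    have h2 : (pt i).1 ≠ 0 := by
      intro h; rw [h] at h1; exact absurd h1 (by decide)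
    have h3 : o i ≠ 0 := by
      intro h; have := ho i; rw [h] at this; exact absurd this (by decide)
    exact mul_ne_zero h2 (mul_ne_zero (by positivity) h3)
  · -- 2-adic valuations
    have key : ∀ i : Fin n, ∃ u : ℤ, Odd u ∧
        ((pt i).1 * (2 ^ (n - (i : ℕ)) * o i)) ^ 3 + ((pt i).2.1 * (2 ^ (n - (i : ℕ)) * o i)) ^ 3 -
          3 * ((pt i).1 * (2 ^ (n - (i : ℕ)) * o i)) *
            ((pt i).2.1 * (2 ^ (n - (i : ℕ)) * o i)) ^ 2 = 2 ^ (3 * (n - (i : ℕ))) * u := by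
      intro i
      obtain ⟨h1, ⟨y', hy'⟩, -, -⟩ := pt_spec i
      refine ⟨o i ^ 3 * ((pt i).1 ^ 3 + (pt i).2.1 ^ 3 - 3 * (pt i).1 * (pt i).2.1 ^ 2), ?_, ?_⟩
      · apply (ho i).pow.mul
        rw [hy']
        have e : (pt i).1 ^ 3 + (4 * y') ^ 3 - 3 * (pt i).1 * (4 * y') ^ 2 =
          (pt i).1 ^ 3 + 2 * (32 * y' ^ 3 - 24 * (pt i).1 * y' ^ 2) := by ring
        rw [e]
        exact h1.pow.add_even (even_two_mul _)
      · have e : (2 : ℤ) ^ (3 * (n - (i : ℕ))) = (2 ^ (n - (i : ℕ))) ^ 3 := by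
          rw [← pow_mul, mul_comm]
        rw [e]
        generalize (2 : ℤ) ^ (n - (i : ℕ)) = T
        ring
    have hlt : ∀ (e e' : ℕ) (u u' : ℤ), Odd u → e < e' → (2 : ℤ) ^ (3 * e) * u ≠
        2 ^ (3 * e') * u' := by
      intro e e' u u' hu hee h
      obtain ⟨r, hr⟩ : ∃ r, 3 * e' = 3 * e + (r + 1) := ⟨3 * e' - 3 * e - 1, by omega⟩
      rw [hr, pow_add, mul_assoc] at h
      have h1 : u = 2 ^ (r + 1) * u' := mul_left_cancel₀ (by positivity) h
      rw [h1, pow_succ] at hu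
      have : Even ((2 : ℤ) ^ r * 2 * u') := ⟨2 ^ r * u', by ring⟩
      exact (Int.not_odd_iff_even.2 this) hu
    intro i j hij
    simp only at hij
    obtain ⟨u, hu, h1⟩ := key i
    obtain ⟨u', hu', h2⟩ := key j
    rw [h1, h2] at hij
    by_contra hne
    have hne' : (i : ℕ) ≠ j := fun h => hne (Fin.ext h)
    have hi := i.2
    have hj := j.2
    rcases lt_or_gt_of_ne hne' with h | h
    · exact hlt (n - j) (n - i) u' u hu' (by omega) hij.symm
    · exact hlt (n - i) (n - j) u u' hu (by omega) hij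

end Pool.Agent.H76.KF
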