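import Mathlib
import Pool.Agent.H76.KF.Pts

set_option autoImplicit false

/-!
# Existence of the data
-/

namespace Pool.Agent.H76.KF

open NumberField

variable {k : Type} [Field k] [NumberField k]

lemma indep_omega {ω : 𝓞 k} (hω : ω ^ 2 + ω + 1 = 0) (x y : ℤ) (h : (x : 𝓞 k) + y * ω = 0) :
    x = 0 ∧ y = 0 := by
  have h1 : ((x ^ 2 - x * y + y ^ 2 : ℤ) : 𝓞 k) = 0 := by
    push_cast
    linear_combination ((x : 𝓞 k) - y - y * ω) * h + (y : 𝓞 k) ^ 2 * hω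
  have h2 : x ^ 2 - x * y + y ^ 2 = 0 := by exact_mod_cast h1
  constructor
  · nlinarith [sq_nonneg (x - 2 * y), sq_nonneg x, sq_nonneg y]
  · nlinarith [sq_nonneg (y - 2 * x), sq_nonneg x, sq_nonneg y]

/-- the data with `a = 0` -/
theorem exists_data0 (n d : ℕ) (hn : 0 < n) :
    ∃ (b : Fin d → ℤ) (β : Fin d → 𝓞 k), Function.Injective b ∧
      (∀ i, (b i : 𝓞 k) - 0 = β i ^ n) ∧ (∀ i, β i ≠ 0) := by
  refine ⟨fun i => ((i : ℕ) + 1) ^ n, fun i => ((i : ℕ) + 1 : 𝓞 k), ?_, ?_, ?_⟩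
  · intro i j hij
    simp only at hij
    have h1 : (((i : ℕ) + 1 : ℕ) : ℤ) ^ n = (((j : ℕ) + 1 : ℕ) : ℤ) ^ n := by exact_mod_cast hij
    have h2 : ((i : ℕ) + 1) ^ n = ((j : ℕ) + 1) ^ n := by exact_mod_cast h1
    have h3 := Nat.pow_left_injective hn.ne' h2
    exact Fin.ext (by omega)
  · intro i
    push_cast
    ring
  · intro i
    have h : ((((i : ℕ) + 1 : ℕ) : 𝓞 k)) ≠ 0 := Nat.cast_ne_zero.2 (Nat.succ_ne_zero (i : ℕ))
    push_cast at h
    exact h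

/-- the data for `n = 3` with `∏ β_i ^ 3` not in `ℤ` -/
theorem exists_data3 {ω : 𝓞 k} (hω : ω ^ 2 + ω + 1 = 0) (d : ℕ) (hd : 0 < d) :
    ∃ (b : Fin d → ℤ) (a : 𝓞 k) (β : Fin d → 𝓞 k), Function.Injective b ∧
      (∀ i, (b i : 𝓞 k) - a = β i ^ 3) ∧ (∀ i, β i ≠ 0) ∧
      ∀ m : ℤ, ∏ i, β i ^ 3 ≠ (m : 𝓞 k) := by
  obtain ⟨X, Y, C, hC, hXY, hX, hinj⟩ := points (d + 1)
  set b : Fin (d + 1) → ℤ := fun i => X i ^ 3 + Y i ^ 3 - 3 * X i * Y i ^ 2 with hb
  set β : Fin (d + 1) → 𝓞 k := fun i => (X i : 𝓞 k) + Y i * ω with hβ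
  set a : 𝓞 k := -(3 * C : 𝓞 k) * ω with ha
  have h1 : ∀ i, (b i : 𝓞 k) - a = β i ^ 3 := by
    intro i
    have h2 : ((X i : 𝓞 k) * Y i * (X i - Y i)) = (C : 𝓞 k) := by
      exact_mod_cast congrArg (fun z : ℤ => (z : 𝓞 k)) (hXY i)
    simp only [hb, hβ, ha]
    rw [← h2]
    push_cast
    have hω3 : ω ^ 3 = 1 := by linear_combination (ω - 1) * hω
    linear_combination (-(3 * (X i : 𝓞 k) * (Y i : 𝓞 k) ^ 2)) * hω - (Y i : 𝓞 k) ^ 3 * hω3
  have h0 : ∀ i, β i ≠ 0 := fun i h => hX i (indep_omega hω _ _ h).1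
  have hex : ∃ i : Fin (d + 1), ∀ m : ℤ, ∏ j : Fin d, β (i.succAbove j) ^ 3 ≠ (m : 𝓞 k) := by
    by_contra hcon
    push Not at hcon
    choose m hm using hcon
    have h2 : ∀ i, ∏ l, β l ^ 3 = ((b i * m i : ℤ) : 𝓞 k) + ((3 * C * m i : ℤ) : 𝓞 k) * ω := by
      intro i
      rw [Fin.prod_univ_succAbove _ i, hm i, ← h1 i, ha]
      push_cast
      ring
    have hm0 : ∀ i, m i ≠ 0 := by
      intro i h
      have h3 := hm i
      rw [h, Int.cast_zero] at h3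
      exact (Finset.prod_ne_zero_iff.2 fun j _ => pow_ne_zero 3 (h0 _)) h3
    obtain ⟨i, j, hij⟩ : ∃ i j : Fin (d + 1), i ≠ j := by
      refine ⟨0, Fin.last d, ?_⟩
      intro h
      have := congrArg Fin.val h
      simp at this
      omega
    have h3 := (h2 i).symm.trans (h2 j)
    obtain ⟨e1, e2⟩ := indep_omega hω (b i * m i - b j * m j) (3 * C * m i - 3 * C * m j) (by
      push_cast at h3 ⊢
      linear_combination h3)
    have e3 : m i = m j := by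
      have h4 : (3 * C) * (m i - m j) = 0 := by linear_combination e2
      have h5 := (mul_eq_zero.1 h4).resolve_left (mul_ne_zero (by norm_num) hC)
      linear_combination h5
    apply hij
    apply hinj
    change b i = b j
    have h4 : (b i - b j) * m j = 0 := by
      rw [e3] at e1
      linear_combination e1
    have h5 := (mul_eq_zero.1 h4).resolve_right (hm0 j)
    linear_combination h5
  obtain ⟨i, hi⟩ := hex
  refine ⟨fun j => b (i.succAbove j), a, fun j => β (i.succAbove j), ?_, fun j => h1 _,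
    fun j => h0 _, hi⟩
  exact hinj.comp Fin.succAbove_right_injective

end Pool.Agent.H76.KF
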