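import Mathlib
import Pool.Agent.H76.KF.LocF
import Pool.Graph.R_seed8.Y789.SG.Glob
import Pool.Graph.R_seed8.W289.SL.LogEx

set_option autoImplicit false

/-!
# Finiteness of the exceptional set, and the data attached to `n`-th roots
-/

namespace Pool.Agent.H76.KF

open Polynomial Filter Topology
open Pool.Agent.W289.SL Pool.Agent.W254.LF Pool.Agent.Y789.SG

theorem glob {p : ℕ} [Fact p.Prime] {L : ℂ_[p] → ℂ_[p]} (hL : IsIwasawaLog p L) {d : ℕ}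
    {S : Type} [Fintype S] (Δ : Pool.Agent.H76.KF.Dat ℂ_[p] d S) (hc : ∑ s, Δ.c s = 0) (u : ℕ)
    (hU : ∀ s i j, (Δ.U s i j).Monic) (hUd : ∀ s i j, (Δ.U s i j).natDegree = u)
    (N : ℕ) (hN : 0 < N) :
    {t : ℤ | ¬ Pool.Agent.H76.KF.Good L Δ (((t : ℂ_[p]) ^ N)⁻¹)}.Finite := by
  by_contra hcon
  have hinf : {t : ℤ | ¬ Pool.Agent.H76.KF.Good L Δ (((t : ℂ_[p]) ^ N)⁻¹)}.Infinite := hcon
  obtain ⟨t₀, ht₀⟩ := acc_int p _ hinf
  have hfreq : ∃ᶠ t in 𝓝[≠] t₀, ¬ Pool.Agent.H76.KF.Good L Δ ((t ^ N)⁻¹) := by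
    refine ht₀.mono ?_
    rintro _ ⟨x, hx, rfl⟩
    exact hx
  apply hfreq
  simp only [not_not]
  by_cases h0 : t₀ = 0
  · subst h0
    have h1 := Pool.Agent.H76.KF.loc_inf hL Δ hc u hU hUd
    have h2 : Tendsto (fun t : ℂ_[p] => t ^ N) (𝓝[≠] 0) (𝓝[≠] 0) := by
      rw [tendsto_nhdsWithin_iff]
      refine ⟨?_, ?_⟩
      · have hc : ContinuousAt (fun t : ℂ_[p] => t ^ N) 0 := by fun_prop
        have h3 := hc.tendsto
        simp only [zero_pow hN.ne'] at h3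
        exact h3.mono_left nhdsWithin_le_nhds
      · filter_upwards [self_mem_nhdsWithin] with t ht
        exact pow_ne_zero _ ht
    exact h2.eventually h1
  · have h1 := Pool.Agent.H76.KF.loc_fin hL Δ hc ((t₀ ^ N)⁻¹) (inv_ne_zero (pow_ne_zero _ h0))
    have h2 : Tendsto (fun t : ℂ_[p] => (t ^ N)⁻¹) (𝓝[≠] t₀) (𝓝[≠] ((t₀ ^ N)⁻¹)) := by
      rw [tendsto_nhdsWithin_iff]
      refine ⟨?_, ?_⟩
      · have hc : ContinuousAt (fun t : ℂ_[p] => (t ^ N)⁻¹) t₀ :=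
          ContinuousAt.inv₀ (by fun_prop) (pow_ne_zero _ h0)
        exact hc.tendsto.mono_left nhdsWithin_le_nhds
      · have hfin : {t : ℂ_[p] | t ^ N = t₀ ^ N}.Finite := by
          classical
          have h3 : (X ^ N - C (t₀ ^ N) : ℂ_[p][X]) ≠ 0 := X_pow_sub_C_ne_zero hN _
          refine (X ^ N - C (t₀ ^ N) : ℂ_[p][X]).roots.toFinset.finite_toSet.subset ?_
          intro t ht
          simp only [Finset.mem_coe, Multiset.mem_toFinset]
          rw [mem_roots h3, IsRoot.def, eval_sub, eval_pow, eval_X, eval_C]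
          exact sub_eq_zero.2 ht
        have h4 : ∀ᶠ t in 𝓝[≠] t₀, t ∉ {t : ℂ_[p] | t ^ N = t₀ ^ N} \ {t₀} := by
          have h5 : ({t : ℂ_[p] | t ^ N = t₀ ^ N} \ {t₀}).Finite := hfin.subset Set.sdiff_subset
          have h6 : ({t : ℂ_[p] | t ^ N = t₀ ^ N} \ {t₀})ᶜ ∈ 𝓝 t₀ :=
            h5.isClosed.isOpen_compl.mem_nhds (by simp)
          exact mem_nhdsWithin_of_mem_nhds h6
        filter_upwards [h4, self_mem_nhdsWithin] with t ht1 ht2 h5
        apply ht1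
        exact ⟨inv_injective h5, ht2⟩
    exact h2.eventually h1

section

variable {C : Type} [Field C] [CharZero C] {d n : ℕ}

omit [CharZero C] in
lemma fac_root (hn : 0 < n) {ζ : C} (hζ : IsPrimitiveRoot ζ n) (x a b : C) (h : b - a = x ^ n) :
    ∏ r : Fin n, (X - Polynomial.C (ζ ^ (r : ℕ) * x)) =
      (X ^ n + Polynomial.C a) - Polynomial.C b := by
  have h1 := X_pow_sub_C_eq_prod hζ hn (show x ^ n = b - a from h.symm)
  rw [Fin.prod_univ_eq_prod_range (fun r => X - Polynomial.C (ζ ^ r * x)) n, ← h1,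
    Polynomial.C_sub]
  ring

lemma sep_root (hn : 0 < n) (a : C) (b : Fin d → C) (hb : Function.Injective b)
    (hab : ∀ i, b i - a ≠ 0) :
    (∏ i, ((X ^ n + Polynomial.C a) - Polynomial.C (b i))).Separable := by
  apply separable_prod'
  · intro i _ j _ hij
    have h1 : (X ^ n + Polynomial.C a) - Polynomial.C (b i) =
      ((X ^ n + Polynomial.C a) - Polynomial.C (b j)) + Polynomial.C (b j - b i) := by
      rw [Polynomial.C_sub]; ring
    rw [h1]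
    have h2 : b j - b i ≠ 0 := sub_ne_zero.2 fun h => hij (hb h.symm)
    refine ⟨Polynomial.C (b j - b i)⁻¹, -Polynomial.C (b j - b i)⁻¹, ?_⟩
    have h3 : Polynomial.C (b j - b i)⁻¹ * Polynomial.C (b j - b i) = 1 := by
      rw [← Polynomial.C_mul, inv_mul_cancel₀ h2, Polynomial.C_1]
    linear_combination h3
  · intro i _
    have h1 : (X ^ n + Polynomial.C a) - Polynomial.C (b i) = X ^ n - Polynomial.C (b i - a) := by
      rw [Polynomial.C_sub]; ring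
    rw [h1]
    exact separable_X_pow_sub_C _ (by exact_mod_cast hn.ne') (hab i)

/-- the data -/
noncomputable def dk (hn : 0 < n) (a : Fin d → C) (b : Fin d → C) (hb : Function.Injective b)
    (ζ : Fin d → C) (hζ : ∀ j, IsPrimitiveRoot (ζ j) n)
    (β : Fin d → Fin d → C) (hβ : ∀ i j, b i - a j = β i j ^ n) (hβ0 : ∀ i j, β i j ≠ 0)
    (ξ : C) (hξ : ξ ≠ 0) : Pool.Agent.H76.KF.Dat C d (Fin n) where
  b := b
  binj := hb
  pi j := X ^ n + Polynomial.C (a j)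
  U r i j := X - Polynomial.C (ζ j ^ (r : ℕ) * β i j)
  c r := ξ ^ (r : ℕ)
  pim j := monic_X_pow_add_C _ hn.ne'
  pid j := by rw [natDegree_X_pow_add_C]; exact hn
  fac i j := fac_root hn (hζ j) _ _ _ (hβ i j)
  sep j := sep_root hn _ _ hb fun i => by rw [hβ i j]; exact pow_ne_zero _ (hβ0 i j)
  cne r := pow_ne_zero _ hξ

omit [CharZero C] in
lemma geom_zero {ξ : C} (hξn : ξ ^ n = 1) (hξ : ξ ≠ 1) : ∑ r : Fin n, ξ ^ (r : ℕ) = 0 := by
  rw [Fin.sum_univ_eq_sum_range (fun r => ξ ^ r) n, geom_sum_eq hξ, hξn, sub_self, zero_div]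

end

/-- the exceptional set, for given restrictions to the quadratic field -/
theorem exc_one (p : ℕ) [Fact p.Prime] {d n : ℕ} (hd : 0 < d) (hn : 0 < n) (b : Fin d → ℤ)
    (hb : Function.Injective b) (a : Fin d → ℂ_[p]) (ζ : Fin d → ℂ_[p])
    (hζ : ∀ j, IsPrimitiveRoot (ζ j) n) (β : Fin d → Fin d → ℂ_[p])
    (hβ : ∀ i j, (b i : ℂ_[p]) - a j = β i j ^ n) (hβ0 : ∀ i j, β i j ≠ 0)
    (ξ : ℂ_[p]) (hξn : ξ ^ n = 1) (hξ : ξ ≠ 1)
    (L : ℂ_[p] → ℂ_[p]) (hL : IsIwasawaLog p L) :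
    ∃ S : Set ℤ, S.Finite ∧ ∀ t : ℤ, t ∉ S → ∀ y : Fin d → ℂ_[p],
      (∀ j, (∏ i, (y j ^ n + a j - b i)) * (t : ℂ_[p]) ^ d = 1) →
      (Function.Injective fun j => y j ^ n + a j) →
      (Matrix.of fun i j => ∑ r : Fin n, ξ ^ (r : ℕ) *
        L (y j - ζ j ^ (r : ℕ) * β i j)).det ≠ 0 := by
  have hb' : Function.Injective fun i => (b i : ℂ_[p]) := fun i j h => hb (Int.cast_injective h)
  have hξ0 : ξ ≠ 0 := by
    rintro rfl
    rw [zero_pow hn.ne'] at hξn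
    exact zero_ne_one hξn
  set Δ : Pool.Agent.H76.KF.Dat ℂ_[p] d (Fin n) :=
    dk hn a (fun i => (b i : ℂ_[p])) hb' ζ hζ β hβ hβ0 ξ hξ0 with hΔ
  have hfin := Pool.Agent.H76.KF.glob hL Δ (geom_zero hξn hξ) 1 (fun r i j => monic_X_sub_C _)
    (fun r i j => natDegree_X_sub_C _) d hd
  refine ⟨_, hfin, ?_⟩
  intro t ht y hy hinj
  rw [Set.mem_ofPred_eq, not_not] at ht
  have h1 := ht y ?_ ?_
  · simpa [hΔ, dk] using h1
  · intro j
    have h2 : (Δ.P j).eval (y j) = ∏ i, (y j ^ n + a j - b i) := by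
      simp [hΔ, dk, Dat.P, eval_prod]
    rw [h2]
    exact eq_inv_of_mul_eq_one_left (hy j)
  · intro j j' h
    apply hinj
    simpa [hΔ, dk] using h

/-- the exceptional set -/
theorem exc_set (p : ℕ) [Fact p.Prime] (k : Type) [Field k] [NumberField k] {d n : ℕ}
    (hd : 0 < d) (hn : 0 < n) (b : Fin d → ℤ) (hb : Function.Injective b) (a ζ : k)
    (hζ : IsPrimitiveRoot ζ n) (β : Fin d → k)
    (hβ : ∀ i, (b i : k) - a = β i ^ n) (hβ0 : ∀ i, β i ≠ 0)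
    (L : ℂ_[p] → ℂ_[p]) (hL : IsIwasawaLog p L) :
    ∃ S : Set ℤ, S.Finite ∧ ∀ t : ℤ, t ∉ S → ∀ (ι : Fin d → (k →+* ℂ_[p])) (y : Fin d → ℂ_[p])
      (ξ : ℂ_[p]), ξ ^ n = 1 → ξ ≠ 1 →
      (∀ j, (∏ i, (y j ^ n + ι j a - b i)) * (t : ℂ_[p]) ^ d = 1) →
      (Function.Injective fun j => y j ^ n + ι j a) →
      (Matrix.of fun i j => ∑ r : Fin n, ξ ^ (r : ℕ) *
        L (y j - ι j ζ ^ (r : ℕ) * ι j (β i))).det ≠ 0 := by
  classical
  have h1 : ∀ (q : (Fin d → (k →+* ℂ_[p])) × {ξ : ℂ_[p] // ξ ∈ nthRootsFinset n (1 : ℂ_[p])}),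
      ∃ S : Set ℤ, S.Finite ∧ ∀ t : ℤ, t ∉ S →
      ∀ y : Fin d → ℂ_[p], (q.2 : ℂ_[p]) ≠ 1 →
      (∀ j, (∏ i, (y j ^ n + q.1 j a - b i)) * (t : ℂ_[p]) ^ d = 1) →
      (Function.Injective fun j => y j ^ n + q.1 j a) →
      (Matrix.of fun i j => ∑ r : Fin n, (q.2 : ℂ_[p]) ^ (r : ℕ) *
        L (y j - q.1 j ζ ^ (r : ℕ) * q.1 j (β i))).det ≠ 0 := by
    rintro ⟨ι, ξ, hξ⟩
    rw [mem_nthRootsFinset hn] at hξ
    by_cases hξ1 : ξ = 1
    · exact ⟨∅, Set.finite_empty, fun t _ y h => absurd hξ1 h⟩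
    · obtain ⟨S, hS, h⟩ := exc_one p hd hn b hb (fun j => ι j a) (fun j => ι j ζ)
        (fun j => hζ.map_of_injective (ι j).injective) (fun i j => ι j (β i)) (by
          intro i j
          have := congrArg (ι j) (hβ i)
          simpa using this) (by
          intro i j
          rw [Ne, map_eq_zero]
          exact hβ0 i) ξ hξ hξ1 L hL
      exact ⟨S, hS, fun t ht y _ h1 h2 => h t ht y h1 h2⟩
  choose S hS hS' using h1
  refine ⟨⋃ q, S q, Set.finite_iUnion hS, ?_⟩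
  intro t ht ι y ξ hξ hξ1 h2 h3
  have hmem : ξ ∈ nthRootsFinset n (1 : ℂ_[p]) := (mem_nthRootsFinset hn _).2 hξ
  refine hS' (ι, ⟨ξ, hmem⟩) t ?_ y hξ1 h2 h3
  intro h
  exact ht (Set.mem_iUnion.2 ⟨_, h⟩)

end Pool.Agent.H76.KF
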