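import Mathlib
import Pool.Graph.R_seed8.Y789.SG.NonSq
import Pool.Graph.R_seed8.H637R2.Leo.Poly

set_option autoImplicit false

/-!
# The polynomial `X ^ n - (w / t - a)` is irreducible
-/

namespace Pool.Agent.H76.KF

open NumberField Polynomial
open Pool.Agent.Y789.SG (place_unit place_ge)

section irr

/-- a norm computation -/
lemma pow_degree_mem {K : Type} [Field K] [CharZero K] {n : ℕ} (hn : 0 < n) {ζ : K}
    (hζ : IsPrimitiveRoot ζ n) {α : K} (hα : α ≠ 0) {Ω : Type} [Field Ω] [Algebra K Ω]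
    [IsAlgClosed Ω] (θ : Ω) (hθ : θ ^ n = algebraMap K Ω α) (hint : IsIntegral K θ) :
    ∃ x : K, algebraMap K Ω x = θ ^ (minpoly K θ).natDegree := by
  classical
  set L := IntermediateField.adjoin K {θ} with hL
  have hfd : FiniteDimensional K L := IntermediateField.adjoin.finiteDimensional hint
  set g : L := IntermediateField.AdjoinSimple.gen K θ with hg
  have hθ0 : θ ≠ 0 := by
    rintro rfl
    rw [zero_pow hn.ne'] at hθ
    exact hα ((map_eq_zero _).1 hθ.symm)
  have h1 := Algebra.norm_eq_prod_embeddings K Ω g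
  have : NeZero n := ⟨hn.ne'⟩
  have hζΩ : IsPrimitiveRoot (algebraMap K Ω ζ) n := hζ.map_of_injective (algebraMap K Ω).injective
  have hgn : g ^ n = algebraMap K L α := by
    apply (algebraMap L Ω).injective
    rw [map_pow, ← IsScalarTower.algebraMap_apply K L Ω]
    exact hθ
  have h2 : ∀ σ : L →ₐ[K] Ω, ∃ i : ℕ, σ g = (algebraMap K Ω ζ) ^ i * θ := by
    intro σ
    have h3 : (σ g / θ) ^ n = 1 := by
      rw [div_pow, ← map_pow, hgn, AlgHom.commutes, hθ, div_self]
      rw [Ne, map_eq_zero]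
      exact hα
    obtain ⟨i, -, hi⟩ := hζΩ.eq_pow_of_pow_eq_one h3
    exact ⟨i, by rw [hi, div_mul_cancel₀ _ hθ0]⟩
  choose i hi using h2
  have hcard : Fintype.card (L →ₐ[K] Ω) = (minpoly K θ).natDegree := by
    rw [AlgHom.card, hL, IntermediateField.adjoin.finrank hint]
  rw [Finset.prod_congr rfl fun σ _ => hi σ, Finset.prod_mul_distrib, Finset.prod_const,
    Finset.card_univ, hcard] at h1
  have h3 : ∏ σ : L →ₐ[K] Ω, (algebraMap K Ω ζ) ^ i σ = algebraMap K Ω (∏ σ, ζ ^ i σ) := by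
    rw [map_prod]
    exact Finset.prod_congr rfl fun σ _ => (map_pow _ _ _).symm
  have hζ0 : ζ ≠ 0 := hζ.ne_zero hn.ne'
  have h4 : (∏ σ : L →ₐ[K] Ω, ζ ^ i σ) ≠ 0 :=
    Finset.prod_ne_zero_iff.2 fun σ _ => pow_ne_zero _ hζ0
  rw [h3] at h1
  refine ⟨Algebra.norm K g / ∏ σ : L →ₐ[K] Ω, ζ ^ i σ, ?_⟩
  rw [map_div₀, h1, mul_div_assoc, mul_comm, div_mul_cancel₀]
  rw [Ne, map_eq_zero]
  exact h4

/-- over a field containing the `n`-th roots of unity -/
theorem irr_of_prime {K : Type} [Field K] [CharZero K] {n : ℕ} (hn : 0 < n) {ζ : K}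
    (hζ : IsPrimitiveRoot ζ n) {α : K} (hα : α ≠ 0)
    (h : ∀ q : ℕ, q.Prime → q ∣ n → ∀ γ : K, γ ^ q ≠ α) : Irreducible (X ^ n - C α : K[X]) := by
  obtain ⟨θ, hθ⟩ := IsAlgClosed.exists_pow_nat_eq (algebraMap K (AlgebraicClosure K) α) hn
  have hint : IsIntegral K θ := Algebra.IsIntegral.isIntegral θ
  obtain ⟨x, hx⟩ := pow_degree_mem hn hζ hα θ hθ hint
  set e := (minpoly K θ).natDegree with he
  have he0 : 0 < e := minpoly.natDegree_pos hint
  have hdvd : minpoly K θ ∣ X ^ n - C α := by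
    apply minpoly.dvd
    rw [map_sub, map_pow, aeval_X, aeval_C, hθ, sub_self]
  have hmon : (X ^ n - C α : K[X]).Monic := monic_X_pow_sub_C _ hn.ne'
  have hen : e ≤ n := by
    have := natDegree_le_of_dvd hdvd hmon.ne_zero
    rwa [natDegree_X_pow_sub_C] at this
  have hθ0 : θ ≠ 0 := by
    rintro rfl
    rw [zero_pow hn.ne'] at hθ
    exact hα ((map_eq_zero _).1 hθ.symm)
  rcases hen.lt_or_eq with hlt | heq
  · exfalso
    set g := Nat.gcd e n with hg
    have hgn : g ∣ n := Nat.gcd_dvd_right e n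
    have hg0 : 0 < g := Nat.gcd_pos_of_pos_left _ he0
    have hge : g ≤ e := Nat.gcd_le_left _ he0
    obtain ⟨m, hm⟩ := hgn
    have hm1 : m ≠ 1 := by
      rintro rfl
      omega
    obtain ⟨y, hy⟩ : ∃ y : K, algebraMap K (AlgebraicClosure K) y = θ ^ g := by
      refine ⟨x ^ (Nat.gcdA e n) * α ^ (Nat.gcdB e n), ?_⟩
      rw [map_mul, map_zpow₀, map_zpow₀, hx, ← hθ, ← zpow_natCast, ← zpow_natCast, ← zpow_natCast,
        ← zpow_mul, ← zpow_mul, ← zpow_add₀ hθ0]
      congr 1
      rw [hg, Nat.gcd_eq_gcd_ab]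
    obtain ⟨q, hq, r, hr⟩ := Nat.exists_prime_and_dvd hm1
    refine h q hq ⟨g * r, by rw [hm, hr]; ring⟩ (y ^ r) ?_
    apply (algebraMap K (AlgebraicClosure K)).injective
    rw [map_pow, map_pow, hy, ← hθ, ← pow_mul, ← pow_mul]
    congr 1
    rw [hm, hr]
    ring
  · have h1 : minpoly K θ = X ^ n - C α := by
      symm
      refine Polynomial.eq_of_monic_of_dvd_of_natDegree_le (minpoly.monic hint) hmon hdvd ?_
      rw [natDegree_X_pow_sub_C, ← he, heq]
    rw [← h1]
    exact minpoly.irreducible hint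

end irr

section int

variable {H : Type} [Field H] {n : ℕ}

/-- the element `(γ - β) / (γ - β')` is integral and congruent to `1` -/
lemma int_ratio2 (hn : 0 < n) {γ β β' v v' t : H} (hv : IsIntegral ℤ v'⁻¹)
    (hv0 : v' ≠ 0) (hvi : IsIntegral ℤ v') (hβ : IsIntegral ℤ β) (hβ' : IsIntegral ℤ β')
    (ht : IsIntegral ℤ t) (ht0 : t ≠ 0)
    (h1 : t * γ ^ n = v + t * β ^ n) (h2 : t * γ ^ n = v' + t * β' ^ n) (hγ : γ - β' ≠ 0) :
    IsIntegral ℤ ((γ - β) / (γ - β')) ∧
      IsIntegral ℤ (((γ - β) / (γ - β') - 1) ^ n / t) := by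
  set ε : H := (γ - β) / (γ - β') with hε
  have e1 : ε - 1 = (β' - β) / (γ - β') := by
    rw [hε, div_sub_one hγ]
    congr 1
    ring
  have e2 : β' * ε - β = (β' - β) * γ / (γ - β') := by
    rw [hε, eq_div_iff hγ, sub_mul, mul_assoc, div_mul_cancel₀ _ hγ]
    ring
  have hγn : (γ - β') ^ n ≠ 0 := pow_ne_zero _ hγ
  -- the basic relation
  have hrel : (v' + t * β' ^ n) * (ε - 1) ^ n = t * (β' * ε - β) ^ n := by
    rw [e1, e2, ← h2, div_pow, div_pow, mul_pow]
    field_simp
  have hεi : IsIntegral ℤ ε := by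
    let O := integralClosure ℤ H
    let V : O := ⟨v', hvi⟩
    let V' : O := ⟨v'⁻¹, hv⟩
    let T : O := ⟨t, ht⟩
    let b : O := ⟨β, hβ⟩
    let b' : O := ⟨β', hβ'⟩
    have hVV : V' * V = 1 := Subtype.ext (inv_mul_cancel₀ hv0)
    set R : O[X] := C V' * (C (V + T * b' ^ n) * (X - 1) ^ n - C T * (C b' * X - C b) ^ n) with hR
    have hd1 : ((X - 1 : O[X]) ^ n).natDegree ≤ n := by
      refine natDegree_pow_le.trans ?_
      have : (X - 1 : O[X]).natDegree ≤ 1 := by
        rw [← C_1]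
        exact (natDegree_X_sub_C_le (1 : O))
      nlinarith
    have hd2 : ((C b' * X - C b : O[X]) ^ n).natDegree ≤ n := by
      refine natDegree_pow_le.trans ?_
      have : (C b' * X - C b : O[X]).natDegree ≤ 1 := by
        refine (natDegree_sub_le _ _).trans (max_le ?_ ?_)
        · exact (natDegree_C_mul_le _ _).trans natDegree_X_le
        · rw [natDegree_C]; exact zero_le_one
      nlinarith
    have hc1 : ((X - 1 : O[X]) ^ n).coeff n = 1 := by
      have h3 : ((X - 1 : O[X]) ^ n).Monic := by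
        rw [← C_1]
        exact (monic_X_sub_C (1 : O)).pow n
      have h4 : ((X - 1 : O[X]) ^ n).natDegree = n := by
        rw [← C_1, (monic_X_sub_C (1 : O)).natDegree_pow, natDegree_X_sub_C, mul_one]
      have h5 := h3.coeff_natDegree
      rwa [h4] at h5
    have hc2 : ((C b' * X - C b : O[X]) ^ n).coeff n = b' ^ n := by
      have h3 : (C b' * X - C b : O[X]).natDegree ≤ 1 := by
        refine (natDegree_sub_le _ _).trans (max_le ?_ ?_)
        · exact (natDegree_C_mul_le _ _).trans natDegree_X_le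
        · rw [natDegree_C]; exact zero_le_one
      have h4 := coeff_pow_of_natDegree_le (m := n) h3
      rw [mul_one] at h4
      rw [h4, coeff_sub, coeff_C_mul, coeff_X_one, mul_one, coeff_C_of_ne_zero one_ne_zero, sub_zero]
    have hRm : R.Monic := by
      have hRd : R.natDegree ≤ n := by
        rw [hR]
        refine (natDegree_C_mul_le _ _).trans ((natDegree_sub_le _ _).trans (max_le ?_ ?_))
        · exact (natDegree_C_mul_le _ _).trans hd1
        · exact (natDegree_C_mul_le _ _).trans hd2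
      have hRc : R.coeff n = 1 := by
        rw [hR, coeff_C_mul, coeff_sub, coeff_C_mul, coeff_C_mul, hc1, hc2]
        linear_combination hVV
      exact monic_of_natDegree_le_of_coeff_eq_one n hRd hRc
    have hroot : aeval ε R = 0 := by
      have a1 : aeval ε R = v'⁻¹ * ((v' + t * β' ^ n) * (ε - 1) ^ n - t * (β' * ε - β) ^ n) := by
        rw [hR]
        simp only [map_mul, map_sub, map_pow, aeval_C, aeval_X, map_one, map_add]
        rfl
      rw [a1, hrel, sub_self, mul_zero]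
    have h8 : IsIntegral O ε := ⟨_, hRm, hroot⟩
    exact isIntegral_trans (R := ℤ) (A := O) ε h8
  refine ⟨hεi, ?_⟩
  have h3 : (ε - 1) ^ n / t = v'⁻¹ * ((β' * ε - β) ^ n - β' ^ n * (ε - 1) ^ n) := by
    have h4 : v' * (ε - 1) ^ n = t * ((β' * ε - β) ^ n - β' ^ n * (ε - 1) ^ n) := by
      linear_combination hrel
    rw [div_eq_iff ht0]
    calc (ε - 1) ^ n = v'⁻¹ * (v' * (ε - 1) ^ n) := by
          rw [← mul_assoc, inv_mul_cancel₀ hv0, one_mul]
      _ = v'⁻¹ * (t * ((β' * ε - β) ^ n - β' ^ n * (ε - 1) ^ n)) := by rw [h4]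
      _ = _ := by ring
  rw [h3]
  exact hv.mul ((((hβ'.mul hεi).sub hβ).pow n).sub ((hβ'.pow n).mul ((hεi.sub isIntegral_one).pow n)))

/-- products of elements congruent to one -/
lemma prod_cong {ι : Type} (I : Finset ι) {s : H} (e : ι → H)
    (he : ∀ i ∈ I, ∃ x, IsIntegral ℤ x ∧ e i = 1 + s * x) (hs : IsIntegral ℤ s) :
    ∃ x, IsIntegral ℤ x ∧ ∏ i ∈ I, e i = 1 + s * x := by
  classical
  induction I using Finset.induction_on with
  | empty => exact ⟨0, isIntegral_zero, by simp⟩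
  | insert a I ha ih =>
    obtain ⟨x, hx, h1⟩ := ih fun i hi => he i (Finset.mem_insert_of_mem hi)
    obtain ⟨y, hy, h2⟩ := he a (Finset.mem_insert_self _ _)
    refine ⟨x + y + s * (x * y), (hx.add hy).add (hs.mul (hx.mul hy)), ?_⟩
    rw [Finset.prod_insert ha, h1, h2]
    ring

end int

section

variable {k : Type} [Field k] [NumberField k] (hk2 : Module.finrank ℚ k = 2) [IsTotallyComplex k]

include hk2 in
theorem nonpow {K : Type} [Field K] [NumberField K] [Algebra k K] {d : ℕ} (hd : 0 < d)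
    (hKk : Module.finrank k K = d) (b : Fin d → ℤ) (hb : Function.Injective b) (a : 𝓞 k)
    {q : ℕ} (hq : 2 ≤ q) {ζ : k} (hζ : IsPrimitiveRoot ζ q)
    (β : Fin d → 𝓞 k) (hβ : ∀ i, (b i : 𝓞 k) - a = β i ^ q) (hβ0 : ∀ i, β i ≠ 0)
    (t : ℤ) (ht : 2 ^ q < |t|) (w : K) (hw : ∏ i, (w - (b i : K) * (t : K)) = 1) (γ : K) :
    (t : K) * γ ^ q ≠ w - algebraMap k K a * (t : K) := by
  classical
  intro hγ
  have ht0 : t ≠ 0 := by
    rintro rfl
    rw [abs_zero] at ht
    exact absurd ht (not_lt.2 (by positivity))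
  have htK : (t : K) ≠ 0 := by exact_mod_cast ht0
  have htC : (t : ℂ) ≠ 0 := by exact_mod_cast ht0
  have hq0 : 0 < q := by omega
  have : NeZero q := ⟨hq0.ne'⟩
  -- units
  set v : Fin d → K := fun i => w - (b i : K) * (t : K) with hv
  have hwint : IsIntegral ℤ w := by
    refine Pool.Agent.H637R2.Leo.theta_integral hd (fun i => b i * t) w ?_
    rw [← hw]
    refine Finset.prod_congr rfl fun i _ => ?_
    push_cast
    ring
  have hvi : ∀ i, IsIntegral ℤ (v i) := fun i =>
    hwint.sub ((isIntegral_algebraMap (R := ℤ) (x := b i)).mul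
      (isIntegral_algebraMap (R := ℤ) (x := t)))
  have hvp : ∀ i, v i * ∏ j ∈ Finset.univ.erase i, v j = 1 := by
    intro i
    rw [Finset.mul_prod_erase _ _ (Finset.mem_univ i)]
    exact hw
  have hv0 : ∀ i, v i ≠ 0 := fun i => left_ne_zero_of_mul_eq_one (hvp i)
  have hvinv : ∀ i, IsIntegral ℤ (v i)⁻¹ := by
    intro i
    rw [← eq_inv_of_mul_eq_one_right (hvp i)]
    exact IsIntegral.prod _ fun j _ => hvi j
  -- the points
  set x : Fin d × Fin q → k := fun s => ζ ^ (s.2 : ℕ) * (β s.1 : k) with hx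
  have hζi : IsIntegral ℤ ζ := by
    refine IsIntegral.of_pow hq0 ?_
    rw [hζ.pow_eq_one]
    exact isIntegral_one
  have hxi : ∀ s, IsIntegral ℤ (x s) := fun s =>
    (hζi.pow _).mul (RingOfIntegers.isIntegral_coe _)
  have hβk : ∀ i, (b i : k) - (a : k) = (β i : k) ^ q := by
    intro i
    have h1 := congrArg (algebraMap (𝓞 k) k) (hβ i)
    rw [map_sub, map_intCast, map_pow] at h1
    exact h1
  have hβk0 : ∀ i, (β i : k) ≠ 0 := fun i h => hβ0 i (RingOfIntegers.ext (h.trans (map_zero _).symm))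
  have hxq : ∀ s, x s ^ q = (b s.1 : k) - (a : k) := by
    intro s
    rw [hx, mul_pow, ← pow_mul, mul_comm (s.2 : ℕ), pow_mul, hζ.pow_eq_one, one_pow, one_mul, hβk]
  have hxinj : Function.Injective x := by
    rintro ⟨i, r⟩ ⟨j, s⟩ h
    have h1 : i = j := by
      have h2 := hxq (i, r)
      rw [h, hxq] at h2
      apply hb
      have h3 : (b i : k) = b j := by linear_combination -h2
      exact_mod_cast h3
    subst h1
    have h2 : ζ ^ (r : ℕ) = ζ ^ (s : ℕ) := mul_right_cancel₀ (hβk0 i) h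
    have h3 := hζ.pow_inj r.2 s.2 h2
    rw [Fin.ext h3]
  have hγx : ∀ s, (t : K) * γ ^ q = v s.1 + t * (algebraMap k K (x s)) ^ q := by
    intro s
    rw [hγ, ← map_pow, hxq, map_sub, map_intCast]
    simp only [hv]
    ring
  have hγne : ∀ s, γ - algebraMap k K (x s) ≠ 0 := by
    intro s h0
    have h1 := hγx s
    rw [sub_eq_zero.1 h0] at h1
    apply hv0 s.1
    linear_combination -h1
  have hxK : ∀ s, IsIntegral ℤ (algebraMap k K (x s)) := fun s =>
    (hxi s).map (algebraMap k K).toIntAlgHom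
  have htint : IsIntegral ℤ (t : K) := isIntegral_algebraMap (R := ℤ) (x := t)
  -- the place
  obtain ⟨pl⟩ : Nonempty (InfinitePlace k) := inferInstance
  set φ := pl.embedding with hφ
  let := φ.toAlgebra
  obtain ⟨s₀, hs₀⟩ := IsAlgClosed.exists_pow_nat_eq (t : ℂ) hq0
  have hs₀0 : s₀ ≠ 0 := by
    rintro rfl
    rw [zero_pow hq0.ne'] at hs₀
    exact htC hs₀.symm
  have hs₀i : IsIntegral ℤ s₀ := by
    refine IsIntegral.of_pow hq0 ?_
    rw [hs₀]
    exact isIntegral_algebraMap (R := ℤ) (x := t)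
  have key : ∀ s s', Algebra.norm k (γ - algebraMap k K (x s)) =
      Algebra.norm k (γ - algebraMap k K (x s')) := by
    intro s s'
    obtain ⟨h1, h2⟩ := int_ratio2 hq0 (hvinv s'.1) (hv0 s'.1) (hvi s'.1) (hxK s) (hxK s') htint
      htK (hγx s) (hγx s') (hγne s')
    obtain ⟨h3, -⟩ := int_ratio2 hq0 (hvinv s.1) (hv0 s.1) (hvi s.1) (hxK s') (hxK s) htint
      htK (hγx s') (hγx s) (hγne s)
    set ε : K := (γ - algebraMap k K (x s)) / (γ - algebraMap k K (x s')) with hε
    have hεinv : (γ - algebraMap k K (x s')) / (γ - algebraMap k K (x s)) = ε⁻¹ := by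
      rw [hε, inv_div]
    rw [hεinv] at h3
    have hε0 : ε ≠ 0 := div_ne_zero (hγne s) (hγne s')
    set u : k := Algebra.norm k ε with hu
    have hui : IsIntegral ℤ u := Algebra.isIntegral_norm k h1
    have hui' : IsIntegral ℤ u⁻¹ := by
      have h4 := Algebra.isIntegral_norm k h3
      have h5 : Algebra.norm k ε * Algebra.norm k ε⁻¹ = 1 := by
        rw [← map_mul, mul_inv_cancel₀ hε0, map_one]
      rwa [eq_inv_of_mul_eq_one_right h5] at h4
    have hu0 : u ≠ 0 := Algebra.norm_ne_zero_iff.2 hε0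
    set U : (𝓞 k)ˣ := ⟨⟨u, hui⟩, ⟨u⁻¹, hui'⟩, RingOfIntegers.ext (mul_inv_cancel₀ hu0),
      RingOfIntegers.ext (inv_mul_cancel₀ hu0)⟩ with hU
    have hplu : pl u = 1 := place_unit hk2 pl U
    -- the norm is congruent to one
    have h5 : φ u = ∏ σ : K →ₐ[k] ℂ, σ ε := by
      have := Algebra.norm_eq_prod_embeddings k ℂ ε
      rw [← this]
      rfl
    obtain ⟨E, hE, h6⟩ := prod_cong (Finset.univ : Finset (K →ₐ[k] ℂ)) (s := s₀) (fun σ => σ ε)
      (fun σ _ => by
        refine ⟨(σ ε - 1) / s₀, ?_, ?_⟩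
        · refine IsIntegral.of_pow hq0 ?_
          rw [div_pow, hs₀]
          have h7 := h2.map (σ : K →+* ℂ).toIntAlgHom
          have h8 : (σ : K →+* ℂ).toIntAlgHom ((ε - 1) ^ q / (t : K)) =
              (σ ε - 1) ^ q / (t : ℂ) := by
            change σ ((ε - 1) ^ q / (t : K)) = _
            rw [map_div₀, map_pow, map_sub, map_one, map_intCast]
          rwa [h8] at h7
        · rw [mul_div_cancel₀ _ hs₀0]
          ring) hs₀i
    have h7 : φ ((u - 1) ^ q / (t : k)) = E ^ q := by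
      rw [map_div₀, map_pow, map_sub, map_one, map_intCast, h5, h6, add_sub_cancel_left, mul_pow,
        hs₀, mul_div_assoc, mul_comm, div_mul_cancel₀ _ htC]
    have h8 : IsIntegral ℤ ((u - 1) ^ q / (t : k)) := by
      have h9 : IsIntegral ℤ (φ.toIntAlgHom ((u - 1) ^ q / (t : k))) := by
        change IsIntegral ℤ (φ ((u - 1) ^ q / (t : k)))
        rw [h7]
        exact hE.pow q
      exact (isIntegral_algHom_iff φ.toIntAlgHom φ.injective).1 h9
    have hu1 : u = 1 := by
      by_contra hne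
      have h9 : (⟨(u - 1) ^ q / (t : k), h8⟩ : 𝓞 k) ≠ 0 := by
        intro h0
        have h10 : (u - 1) ^ q / (t : k) = 0 :=
          (congrArg (fun z : 𝓞 k => (z : k)) h0).trans (map_zero (algebraMap (𝓞 k) k))
        rw [div_eq_zero_iff] at h10
        rcases h10 with h10 | h10
        · exact hne (sub_eq_zero.1 (pow_eq_zero_iff hq0.ne' |>.1 h10))
        · exact ht0 (by exact_mod_cast h10)
      have h10 := place_ge hk2 pl _ h9
      change 1 ≤ pl ((u - 1) ^ q / (t : k)) at h10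
      rw [map_div₀, map_pow] at h10
      have h11 : pl (t : k) = |(t : ℝ)| := by
        rw [← InfinitePlace.norm_embedding_eq, map_intCast]
        simp
      have h12 : pl (u - 1) ≤ 2 := by
        have h13 : pl (u - 1) ≤ pl u + pl 1 := by
          rw [← InfinitePlace.norm_embedding_eq, ← InfinitePlace.norm_embedding_eq,
            ← InfinitePlace.norm_embedding_eq, map_sub]
          exact norm_sub_le _ _
        rw [hplu, map_one] at h13
        linarith
      have h13 : (2 : ℝ) ^ q < |(t : ℝ)| := by exact_mod_cast ht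
      have h14 : (0 : ℝ) < |(t : ℝ)| := lt_trans (by positivity) h13
      rw [h11, le_div_iff₀ h14, one_mul] at h10
      have h15 : pl (u - 1) ^ q ≤ 2 ^ q := pow_le_pow_left₀ (apply_nonneg _ _) h12 q
      linarith
    have h9 : γ - algebraMap k K (x s) = ε * (γ - algebraMap k K (x s')) := by
      rw [hε, div_mul_cancel₀ _ (hγne s')]
    rw [h9, map_mul, ← hu, hu1, one_mul]
  -- the polynomial
  set M : ℂ[X] := ∏ σ : K →ₐ[k] ℂ, (X - C (σ γ)) with hM
  have hcard : Fintype.card (K →ₐ[k] ℂ) = d := by rw [AlgHom.card, hKk]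
  have hMm : M.Monic := monic_prod_of_monic _ _ fun i _ => monic_X_sub_C _
  have hMd : M.natDegree = d := by
    rw [hM, natDegree_prod_of_monic _ _ fun i _ => monic_X_sub_C _,
      Finset.sum_congr rfl fun i _ => natDegree_X_sub_C _]
    simp [hcard]
  have hMev : ∀ s, M.eval (φ (x s)) =
      (-1) ^ d * φ (Algebra.norm k (γ - algebraMap k K (x s))) := by
    intro s
    have h1 := Algebra.norm_eq_prod_embeddings k ℂ (γ - algebraMap k K (x s))
    have h2 : φ (Algebra.norm k (γ - algebraMap k K (x s))) =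
        ∏ σ : K →ₐ[k] ℂ, σ (γ - algebraMap k K (x s)) := h1
    rw [h2, hM, eval_prod]
    have h3 : ((-1 : ℂ)) ^ d = ∏ _σ : K →ₐ[k] ℂ, (-1 : ℂ) := by
      rw [Finset.prod_const, Finset.card_univ, hcard]
    rw [h3, ← Finset.prod_mul_distrib]
    refine Finset.prod_congr rfl fun σ _ => ?_
    rw [eval_sub, eval_X, eval_C, map_sub, AlgHom.commutes]
    have h4 : algebraMap k ℂ (x s) = φ (x s) := rfl
    rw [h4]
    ring
  set s0 : Fin d × Fin q := (⟨0, hd⟩, ⟨0, hq0⟩) with hs0
  have hev : ∀ s, M.eval (φ (x s)) = (C (M.eval (φ (x s0)))).eval (φ (x s)) := by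
    intro s
    rw [eval_C, hMev, hMev, key s s0]
  have hinj : Function.Injective fun s => φ (x s) := fun s s' h => hxinj (φ.injective h)
  have hcardx : max M.natDegree (C (M.eval (φ (x s0)))).natDegree <
      Fintype.card (Fin d × Fin q) := by
    rw [natDegree_C, Fintype.card_prod, Fintype.card_fin, Fintype.card_fin, hMd]
    have : d * 2 ≤ d * q := Nat.mul_le_mul_left d hq
    omega
  have h1 := eq_of_natDegree_lt_card_of_eval_eq M _ hinj hev hcardx
  have h2 : M.natDegree = 0 := by rw [h1, natDegree_C]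
  omega

end

end Pool.Agent.H76.KF
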