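import Mathlib
import Pool.Graph.R_seed8.W289.SL.Defs
import Pool.Graph.R_seed8.W332.SL6.Chi
import Pool.Graph.R_seed8.Y789.SG.LogU

set_option autoImplicit false

/-!
# The units `(θ - β) / (θ - ζ β)`
-/

namespace Pool.Agent.H76.KF

open NumberField Polynomial
open Pool.Agent.W289.SL Pool.Agent.W332.SL6 Pool.Agent.Y789.SG

section int

variable {H : Type} [Field H] {n : ℕ}

/-- the element `(θ - β) / (θ - ζ β)` is integral -/
lemma int_ratio (hn : 0 < n) {θ β ζ v B t : H} (hζ : ζ ^ n = 1)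
    (hv : IsIntegral ℤ v⁻¹) (hv0 : v ≠ 0) (hB : IsIntegral ℤ B) (ht : t ≠ 0)
    (h1 : t * β ^ n = B) (h2 : t * θ ^ n = v + B) (hθ : θ - ζ * β ≠ 0) :
    IsIntegral ℤ ((θ - β) / (θ - ζ * β)) := by
  set ε : H := (θ - β) / (θ - ζ * β) with hε
  have hζi : IsIntegral ℤ ζ := by
    refine IsIntegral.of_pow hn ?_
    rw [hζ]
    exact isIntegral_one
  let O := integralClosure ℤ H
  let z : O := ⟨ζ, hζi⟩
  let u : O := ⟨v⁻¹ * B, hv.mul hB⟩
  have hz : z ^ n = 1 := Subtype.ext (by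
    change ζ ^ n = 1
    exact hζ)
  have hz0 : z ≠ 0 := by
    intro h0
    rw [h0, zero_pow hn.ne'] at hz
    exact zero_ne_one hz
  set P : O[X] := (X - 1) ^ n with hP
  set Q : O[X] := (C z * X - 1) ^ n with hQ
  have hPm : P.Monic := (monic_X_sub_C (1 : O)).pow n
  have hPd : P.degree = n := by
    have h3 : (X - 1 : O[X]) = X - C 1 := by rw [C_1]
    rw [hP, h3, degree_pow, degree_X_sub_C]
    simp
  have hlin : (C z * X - 1 : O[X]) = C z * X + C (-1) := by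
    rw [C_neg, C_1]; ring
  have hQd : Q.degree = n := by
    rw [hQ, hlin, degree_pow, degree_linear hz0]
    simp
  have hQl : Q.leadingCoeff = 1 := by
    rw [hQ, hlin, leadingCoeff_pow, leadingCoeff_linear hz0, hz]
  have hdeg : (P - Q).degree < n := by
    have h3 := degree_sub_lt_left (hPd.trans hQd.symm) hPm.ne_zero
      (hPm.leadingCoeff.trans hQl.symm)
    rwa [hPd] at h3
  have hRm : (P + C u * (P - Q)).Monic := by
    apply hPm.add_of_left
    rw [hPd]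
    refine lt_of_le_of_lt ?_ hdeg
    refine (degree_mul_le _ _).trans ((add_le_add degree_C_le le_rfl).trans ?_)
    rw [zero_add]
  have hroot : aeval ε (P + C u * (P - Q)) = 0 := by
    have e1 : aeval ε P = (ε - 1) ^ n := by
      rw [hP]; simp
    have e2 : aeval ε Q = (ζ * ε - 1) ^ n := by
      rw [hQ, map_pow, map_sub, map_mul, aeval_C, aeval_X, map_one]
      rfl
    have e3 : algebraMap O H u = v⁻¹ * B := rfl
    rw [map_add, map_mul, map_sub, aeval_C, e1, e2, e3]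
    have h3 : ε - 1 = -(β * (1 - ζ)) / (θ - ζ * β) := by
      rw [hε, div_sub_one hθ]
      congr 1
      ring
    have h4 : ζ * ε - 1 = -(θ * (1 - ζ)) / (θ - ζ * β) := by
      rw [hε, mul_div_assoc', div_sub_one hθ]
      congr 1
      ring
    rw [h3, h4, div_pow, div_pow]
    have h5 : ∀ x : H, (-(x * (1 - ζ))) ^ n = x ^ n * (-(1 - ζ)) ^ n := by
      intro x
      rw [← mul_pow]
      congr 1
      ring
    rw [h5, h5]
    have h6 : β ^ n = B / t := by
      rw [← h1]; field_simp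
    have h7 : θ ^ n = (v + B) / t := by
      rw [← h2]; field_simp
    rw [h6, h7]
    field_simp
    ring
  have h8 : IsIntegral O ε := ⟨_, hRm, hroot⟩
  exact isIntegral_trans (R := ℤ) (A := O) ε h8

end int

/-- the unit -/
lemma exists_unit' {H : Type} [Field H] [NumberField H] {n : ℕ} (hn : 0 < n)
    {θ β ζ v B t : H} (hζ : ζ ^ n = 1) (hv : IsIntegral ℤ v⁻¹) (hv0 : v ≠ 0)
    (hB : IsIntegral ℤ B) (ht : t ≠ 0) (h1 : t * β ^ n = B) (h2 : t * θ ^ n = v + B)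
    (hθ : ∀ x : H, x ^ n = 1 → θ - x * β ≠ 0) :
    ∃ ε : (𝓞 H)ˣ, ((ε : 𝓞 H) : H) = (θ - β) / (θ - ζ * β) := by
  have hζ0 : ζ ≠ 0 := by
    rintro rfl
    rw [zero_pow hn.ne'] at hζ
    exact zero_ne_one hζ
  have h3 := int_ratio hn hζ hv hv0 hB ht h1 h2 (hθ ζ hζ)
  have hθ1 : θ - β ≠ 0 := by
    have := hθ 1 (one_pow n)
    rwa [one_mul] at this
  have h4 : IsIntegral ℤ ((θ - ζ * β) / (θ - β)) := by
    have h5 : ζ⁻¹ ^ n = 1 := by rw [inv_pow, hζ, inv_one]
    have h6 : ζ⁻¹ * (ζ * β) = β := by rw [← mul_assoc, inv_mul_cancel₀ hζ0, one_mul]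
    have h7 := int_ratio (β := ζ * β) (ζ := ζ⁻¹) hn h5 hv hv0 hB ht
      (by rw [mul_pow, hζ, one_mul]; exact h1) h2 (by rw [h6]; exact hθ1)
    rwa [h6] at h7
  have h8 : (θ - β) / (θ - ζ * β) * ((θ - ζ * β) / (θ - β)) = 1 := by
    rw [div_mul_div_comm, mul_comm (θ - ζ * β) (θ - β), div_self (mul_ne_zero hθ1 (hθ ζ hζ))]
  refine ⟨⟨⟨_, h3⟩, ⟨_, h4⟩, ?_, ?_⟩, rfl⟩
  · apply RingOfIntegers.ext
    exact h8
  · apply RingOfIntegers.ext
    change (θ - ζ * β) / (θ - β) * ((θ - β) / (θ - ζ * β)) = 1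
    rw [mul_comm]
    exact h8

section weights

variable {C : Type} [Field C] {n : ℕ} [NeZero n]

lemma pow_val_add {x : C} (hx : x ^ n = 1) (r s : ZMod n) :
    x ^ (r + s).val = x ^ r.val * x ^ s.val := by
  rw [ZMod.val_add, ← pow_add, ← pow_eq_pow_mod _ hx]

lemma pow_val_neg {x : C} (hx : x ^ n = 1) (r : ZMod n) : x ^ (-r).val = (x ^ r.val)⁻¹ := by
  have h := pow_val_add hx r (-r)
  rw [add_neg_cancel, ZMod.val_zero, pow_zero] at h
  exact eq_inv_of_mul_eq_one_right h.symm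

lemma weights {ξ : C} (hξ : ξ ^ n = 1) (hn : 1 < n) (F : ZMod n → C) :
    ∑ m : ZMod n, ξ ^ (-m).val * (F (-m) - F (1 - m)) =
      (1 - ξ⁻¹) * ∑ r : ZMod n, ξ ^ r.val * F r := by
  have hξ0 : ξ ≠ 0 := by
    rintro rfl
    rw [zero_pow (by omega)] at hξ
    exact zero_ne_one hξ
  have h1 : ∑ m : ZMod n, ξ ^ (-m).val * F (-m) = ∑ r : ZMod n, ξ ^ r.val * F r :=
    Fintype.sum_equiv (Equiv.neg (ZMod n)) _ _ fun m => rfl
  have h2 : ∑ m : ZMod n, ξ ^ (-m).val * F (1 - m) = ξ⁻¹ * ∑ r : ZMod n, ξ ^ r.val * F r := by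
    rw [Finset.mul_sum]
    refine Fintype.sum_equiv (Equiv.subLeft (1 : ZMod n)) _ _ fun m => ?_
    rw [Equiv.subLeft_apply]
    have h3 : ξ ^ (1 - m).val = ξ * ξ ^ (-m).val := by
      rw [sub_eq_add_neg, pow_val_add hξ]
      congr 1
      rw [ZMod.val_one'' (by omega), pow_one]
    rw [h3]
    field_simp
  simp only [mul_sub, Finset.sum_sub_distrib]
  rw [h1, h2]
  ring

end weights

section logs

variable {p : ℕ} [Fact p.Prime] {L : ℂ_[p] → ℂ_[p]} (hL : IsIwasawaLog p L)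

include hL

lemma log_one : L 1 = 0 := by
  have h := hL.mul 1 1 one_ne_zero one_ne_zero
  rw [mul_one] at h
  exact left_eq_add.1 h

lemma log_root {n : ℕ} (hn : 0 < n) {x : ℂ_[p]} (hx : x ^ n = 1) : L x = 0 := by
  have hx0 : x ≠ 0 := by
    rintro rfl
    rw [zero_pow hn.ne'] at hx
    exact zero_ne_one hx
  have h1 := hL.pow hx0 n
  rw [hx, log_one hL] at h1
  have h2 : (n : ℂ_[p]) ≠ 0 := by exact_mod_cast hn.ne'
  exact (mul_eq_zero.1 h1.symm).resolve_left h2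

lemma log_div {x y : ℂ_[p]} (hx : x ≠ 0) (hy : y ≠ 0) : L (x / y) = L x - L y := by
  have h1 := hL.mul (x / y) y (div_ne_zero hx hy) hy
  rw [div_mul_cancel₀ _ hy] at h1
  rw [h1]; ring

/-- the logarithms of the conjugates of the ratio -/
lemma log_conj {n : ℕ} [NeZero n] (hn : 1 < n) {ζ y β : ℂ_[p]} (hζ : ζ ^ n = 1)
    (hy : ∀ x : ℂ_[p], x ^ n = 1 → y - x * β ≠ 0) (m : ZMod n) :
    L ((ζ ^ m.val * y - β) / (ζ ^ m.val * y - ζ * β)) =
      L (y - ζ ^ (-m).val * β) - L (y - ζ ^ (1 - m).val * β) := by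
  have hr : ∀ r : ZMod n, (ζ ^ r.val) ^ n = 1 := by
    intro r
    rw [← pow_mul, mul_comm, pow_mul, hζ, one_pow]
  have hr0 : ∀ r : ZMod n, ζ ^ r.val ≠ 0 := by
    intro r h0
    have := hr r
    rw [h0, zero_pow (by omega)] at this
    exact zero_ne_one this
  have h1 : ζ ^ m.val * ζ ^ (-m).val = 1 := by
    rw [pow_val_neg hζ, mul_inv_cancel₀ (hr0 m)]
  have h2 : ζ ^ m.val * ζ ^ (1 - m).val = ζ := by
    rw [← pow_val_add hζ, add_sub_cancel, ZMod.val_one'' (by omega), pow_one]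
  have e1 : ζ ^ m.val * y - β = ζ ^ m.val * (y - ζ ^ (-m).val * β) := by
    linear_combination β * h1
  have e2 : ζ ^ m.val * y - ζ * β = ζ ^ m.val * (y - ζ ^ (1 - m).val * β) := by
    linear_combination β * h2
  have n1 := hy _ (hr (-m))
  have n2 := hy _ (hr (1 - m))
  rw [e1, e2, mul_div_mul_left _ _ (hr0 m), log_div hL n1 n2]

end logs

end Pool.Agent.H76.KF
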