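import Mathlib
import Pool.Agent.H76.KF.Exc
import Pool.Agent.H76.KF.Crit
import Pool.Agent.H76.KF.Unit
import Pool.Agent.H76.KF.NonPow
import Pool.Graph.R_seed8.Y789.SG.Main

set_option autoImplicit false

/-!
# The main theorem
-/

namespace Pool.Agent.H76.KF

open NumberField Polynomial
open Pool.Agent.W289.SL Pool.Agent.W332.SL6
open Pool.Agent.Y789.SG (log_unique totally_real)

/-- the Sigma-Leopoldt statement for one field -/
theorem sl_one (p : ℕ) [Fact p.Prime] {k : Type} [Field k] [NumberField k]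
    {d n : ℕ} (hn : 1 < n) {ζ : k} (hζ : IsPrimitiveRoot ζ n)
    (b : Fin d → ℤ) (a : 𝓞 k) (β : Fin d → 𝓞 k) (hβ : ∀ i, (b i : 𝓞 k) - a = β i ^ n)
    {L₀ : ℂ_[p] → ℂ_[p]} (hL₀ : IsIwasawaLog p L₀) (t : ℤ) (ht0 : t ≠ 0)
    (hexc : ∀ (ι : Fin d → (k →+* ℂ_[p])) (y : Fin d → ℂ_[p]) (ξ : ℂ_[p]), ξ ^ n = 1 → ξ ≠ 1 →
      (∀ j, (∏ i, (y j ^ n + ι j a - b i)) * (t : ℂ_[p]) ^ d = 1) →
      (Function.Injective fun j => y j ^ n + ι j a) →
      (Matrix.of fun i j => ∑ r : Fin n, ξ ^ (r : ℕ) *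
        L₀ (y j - ι j ζ ^ (r : ℕ) * ι j (β i))).det ≠ 0)
    {F K H : Type} [Field F] [NumberField F] [Field K] [NumberField K] [IsTotallyComplex K]
    [Field H] [NumberField H] [Algebra F K] [Algebra k K] [Algebra K H]
    (hFK : Module.finrank F K = 2) (hFd : Module.finrank ℚ F = d) (w : F)
    (hw : ∏ i, (w - (b i : F) * (t : F)) = 1) (hgen : IntermediateField.adjoin ℚ {w} = ⊤)
    (α : K) (hα : (t : K) * α = algebraMap F K w - algebraMap k K a * (t : K))
    (hirr : Irreducible (X ^ n - C α : K[X]))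
    (hKH : Module.finrank K H = n) (θ : H) (hθ : θ ^ n = algebraMap K H α)
    (S : Set (K →+* ℂ_[p])) (hS : IsCMType p F K S) (χ : (H ≃ₐ[K] H) →* ℂ_[p]ˣ) (hχ : χ ≠ 1) :
    SigmaLeopoldt p K H S χ := by
  classical
  have hn0 : n ≠ 0 := by omega
  have hnpos : 0 < n := by omega
  have : NeZero n := ⟨hn0⟩
  have hd2 : Module.finrank ℚ K = 2 * d := by
    rw [← Module.finrank_mul_finrank ℚ F K, hFd, hFK, mul_comm]
  have hd : 1 ≤ d := by
    have := Module.finrank_pos (R := ℚ) (M := K)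
    omega
  -- the extension `H / K`
  set z : K := algebraMap k K ζ with hz
  have hζK : IsPrimitiveRoot z n := hζ.map_of_injective (algebraMap k K).injective
  have hprim : (primitiveRoots n K).Nonempty := ⟨z, (mem_primitiveRoots hnpos).2 hζK⟩
  have hfd : FiniteDimensional K H := Module.finite_of_finrank_pos (by omega)
  have hint : IsIntegral K θ := Algebra.IsIntegral.isIntegral θ
  have hmin : minpoly K θ = X ^ n - C α := by
    symm
    apply minpoly.eq_of_irreducible_of_monic hirr _ (monic_X_pow_sub_C _ hn0)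
    rw [map_sub, map_pow, aeval_X, aeval_C, hθ, sub_self]
  have htop : IntermediateField.adjoin K {θ} = ⊤ := by
    rw [Field.primitive_element_iff_minpoly_natDegree_eq, hmin, natDegree_X_pow_sub_C, hKH]
  have hsf : IsSplittingField K H (X ^ n - C α) := by
    have h1 : (primitiveRoots (Module.finrank K H) K).Nonempty := by rwa [hKH]
    have h2 := isSplittingField_X_pow_sub_C_of_root_adjoin_eq_top h1 (a := α) (α := θ)
      (by rw [hKH]; exact hθ) htop
    rwa [hKH] at h2
  have hgal : IsGalois K H := isGalois_of_isSplittingField_X_pow_sub_C hprim hirr H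
  set e := autEquivZmod hirr H hζK with he
  set g : ZMod n → (H ≃ₐ[K] H) := fun m => e.symm (Multiplicative.ofAdd m) with hg
  have hgbij : Function.Bijective g :=
    (Multiplicative.ofAdd.trans e.symm.toEquiv).bijective
  have hgθ : ∀ m : ZMod n, g m θ = algebraMap K H z ^ m.val * θ := by
    intro m
    have h1 := autEquivZmod_symm_apply_natCast hirr H hθ hζK m.val
    rw [ZMod.natCast_zmod_val, Algebra.smul_def, map_pow] at h1
    exact h1
  have hgpow : ∀ m : ZMod n, g m = g 1 ^ m.val := by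
    intro m
    simp only [hg]
    rw [← map_pow, ← ofAdd_nsmul, nsmul_one, ZMod.natCast_zmod_val]
  have hg1n : g 1 ^ n = 1 := by
    simp only [hg]
    rw [← map_pow, ← ofAdd_nsmul, nsmul_one, ZMod.natCast_self, ofAdd_zero, map_one]
  set ξ : ℂ_[p] := ((χ (g 1) : ℂ_[p]ˣ) : ℂ_[p]) with hξ
  have hξn : ξ ^ n = 1 := by
    rw [hξ, ← Units.val_pow_eq_pow_val, ← map_pow, hg1n, map_one, Units.val_one]
  have hχg : ∀ m : ZMod n, ((χ (g m) : ℂ_[p]ˣ) : ℂ_[p]) = ξ ^ m.val := by
    intro m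
    rw [hgpow m, map_pow, Units.val_pow_eq_pow_val]
  have hginv : ∀ m : ZMod n, (g m)⁻¹ = g (-m) := by
    intro m
    simp only [hg]
    rw [← map_inv, ofAdd_neg]
  have hξ1 : ξ ≠ 1 := by
    intro h1
    apply hχ
    apply MonoidHom.ext
    intro τ
    obtain ⟨m, rfl⟩ := hgbij.2 τ
    apply Units.ext
    rw [hχg, h1, one_pow, MonoidHom.one_apply, Units.val_one]
  have hξ0 : ξ ≠ 0 := Units.ne_zero _
  -- integrality
  have htF : (t : F) ≠ 0 := by exact_mod_cast ht0
  have htK : (t : K) ≠ 0 := by exact_mod_cast ht0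
  have htH : (t : H) ≠ 0 := by exact_mod_cast ht0
  have hwint : IsIntegral ℤ w :=
    Pool.Agent.H637R2.Leo.theta_integral hd (fun i => b i * t) w (by
      rw [← hw]
      refine Finset.prod_congr rfl fun i _ => ?_
      push_cast
      ring)
  set v : Fin d → F := fun i => w - (b i : F) * (t : F) with hv
  have hvi : ∀ i, IsIntegral ℤ (v i) := fun i =>
    hwint.sub ((isIntegral_algebraMap (R := ℤ) (x := b i)).mul
      (isIntegral_algebraMap (R := ℤ) (x := t)))
  have hvp : ∀ i, v i * ∏ j ∈ Finset.univ.erase i, v j = 1 := by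
    intro i
    rw [Finset.mul_prod_erase _ _ (Finset.mem_univ i)]
    exact hw
  have hv0 : ∀ i, v i ≠ 0 := fun i => left_ne_zero_of_mul_eq_one (hvp i)
  have hvinv : ∀ i, IsIntegral ℤ (v i)⁻¹ := by
    intro i
    rw [← eq_inv_of_mul_eq_one_right (hvp i)]
    exact IsIntegral.prod _ fun j _ => hvi j
  set jFH : F →+* H := (algebraMap K H).comp (algebraMap F K) with hjFH
  set jkH : k →+* H := (algebraMap K H).comp (algebraMap k K) with hjkH
  have hβk : ∀ i, (b i : k) - (a : k) = (β i : k) ^ n := by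
    intro i
    have h1 := congrArg (algebraMap (𝓞 k) k) (hβ i)
    rw [map_sub, map_intCast, map_pow] at h1
    exact h1
  have htθ : (t : H) * θ ^ n = jFH w - jkH a * t := by
    rw [hθ, ← map_intCast (algebraMap K H) t, ← map_mul, hα, map_sub, map_mul]
    rfl
  have hβH : ∀ i, (t : H) * jkH (β i) ^ n = (b i : H) * t - jkH a * t := by
    intro i
    rw [← map_pow, ← hβk i, map_sub, map_intCast]
    ring
  have hrel : ∀ i, (t : H) * θ ^ n = jFH (v i) + (t : H) * jkH (β i) ^ n := by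
    intro i
    rw [hβH, htθ]
    simp only [hv]
    rw [map_sub, map_mul, map_intCast, map_intCast]
    ring
  have hvH0 : ∀ i, jFH (v i) ≠ 0 := fun i => by
    rw [Ne, map_eq_zero]; exact hv0 i
  have hθne : ∀ i (x : H), x ^ n = 1 → θ - x * jkH (β i) ≠ 0 := by
    intro i x hx h0
    have h1 := hrel i
    rw [sub_eq_zero.1 h0, mul_pow, hx, one_mul] at h1
    apply hvH0 i
    linear_combination -h1
  set zH : H := algebraMap K H z with hzH
  have hzHn : zH ^ n = 1 := by rw [hzH, ← map_pow, hζK.pow_eq_one, map_one]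
  have hunit : ∀ i, ∃ ε : (𝓞 H)ˣ,
      ((ε : 𝓞 H) : H) = (θ - jkH (β i)) / (θ - zH * jkH (β i)) := by
    intro i
    refine exists_unit' hnpos (B := (t : H) * jkH (β i) ^ n) hzHn ?_ (hvH0 i) ?_ htH rfl
      (hrel i) (hθne i)
    · rw [← map_inv₀]
      exact (hvinv i).map jFH.toIntAlgHom
    · exact (isIntegral_algebraMap (R := ℤ) (x := t)).mul
        (((RingOfIntegers.isIntegral_coe (β i)).map jkH.toIntAlgHom).pow n)
  choose ε hε using hunit
  -- the embeddings
  have hquad : Algebra.IsQuadraticExtension F K := ⟨hFK⟩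
  have hcard2 : Nat.card (K ≃ₐ[F] K) = 2 := by
    rw [IsGalois.card_aut_eq_finrank, hFK]
  obtain ⟨c, hc⟩ : ∃ c : K ≃ₐ[F] K, c ≠ 1 := by
    have : Nontrivial (K ≃ₐ[F] K) := by
      rw [← Finite.one_lt_card_iff_nontrivial, hcard2]; norm_num
    exact exists_ne 1
  have hcardF : Fintype.card (F →+* ℂ_[p]) = d := by rw [NumberField.Embeddings.card, hFd]
  set eF : Fin d ≃ (F →+* ℂ_[p]) := (Fintype.equivFinOfCardEq hcardF).symm with heF
  have hext : ∀ τ' : F →+* ℂ_[p], ∃ s : K →+* ℂ_[p], s.comp (algebraMap F K) = τ' ∧ s ∈ S := by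
    intro τ'
    obtain ⟨s, hs⟩ := exists_ext (K := K) τ'
    by_cases hsS : s ∈ S
    · exact ⟨s, hs, hsS⟩
    · refine ⟨s.comp (c : K →+* K), ?_, ?_⟩
      · rw [← hs]
        ext y
        simp
      · by_contra hcon
        exact hsS ((hS c hc s).2 hcon)
  choose s hs hsS using fun j => hext (eF j)
  choose σ hσ using fun j => exists_ext (K := H) (s j)
  have ev : ∀ j (x : K), σ j (algebraMap K H x) = s j x := fun j x => by rw [← hσ j]; rfl
  have evF : ∀ j (x : F), s j (algebraMap F K x) = eF j x := fun j x => by rw [← hs j]; rfl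
  have htp : (t : ℂ_[p]) ≠ 0 := by exact_mod_cast ht0
  set ι : Fin d → (k →+* ℂ_[p]) := fun j => (s j).comp (algebraMap k K) with hι
  have hσk : ∀ j (x : k), σ j (jkH x) = ι j x := by
    intro j x
    change σ j (algebraMap K H (algebraMap k K x)) = _
    rw [ev]
    rfl
  have hσF : ∀ j (x : F), σ j (jFH x) = eF j x := by
    intro j x
    change σ j (algebraMap K H (algebraMap F K x)) = _
    rw [ev, evF]
  set y : Fin d → ℂ_[p] := fun j => σ j θ with hy
  have hypow : ∀ j, y j ^ n + ι j a = eF j w / (t : ℂ_[p]) := by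
    intro j
    have h1 := congrArg (σ j) htθ
    rw [map_mul, map_intCast, map_pow, map_sub, map_mul, map_intCast, hσF, hσk] at h1
    rw [eq_div_iff htp]
    linear_combination h1
  intro L hL x hact hlog
  refine criterion d hd2 χ (fun i => xu χ (Additive.ofMul (ε i))) (fun i => xu_inChi χ _) hL σ ?_ x
    hact (fun j => hlog _ (by rw [hσ j]; exact hsS j))
  -- the regulator matrix
  have hyne : ∀ i j (x : ℂ_[p]), x ^ n = 1 → y j - x * ι j (β i) ≠ 0 := by
    intro i j x hx h0
    have h1 := congrArg (σ j) (hrel i)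
    rw [map_mul, map_intCast, map_pow, map_add, map_mul, map_intCast, map_pow, hσF, hσk] at h1
    change (t : ℂ_[p]) * y j ^ n = _ at h1
    rw [sub_eq_zero.1 h0, mul_pow, hx, one_mul] at h1
    have h2 : eF j (v i) = 0 := by linear_combination -h1
    exact hv0 i ((map_eq_zero _).1 h2)
  have hentry : ∀ i j, logLin hL (σ j) (xu χ (Additive.ofMul (ε i))) =
      (1 - ξ⁻¹) * ∑ r : Fin n, ξ ^ (r : ℕ) * L₀ (y j - ι j ζ ^ (r : ℕ) * ι j (β i)) := by
    intro i j
    have hιζ : (ι j ζ) ^ n = 1 := by rw [← map_pow, hζ.pow_eq_one, map_one]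
    have h1 : logLin hL (σ j) (xu χ (Additive.ofMul (ε i))) =
        ∑ τ : H ≃ₐ[K] H, ((χ τ⁻¹ : ℂ_[p]ˣ) : ℂ_[p]) * L (σ j (τ ((ε i : 𝓞 H) : H))) := by
      unfold xu
      rw [map_sum]
      refine Finset.sum_congr rfl fun τ _ => ?_
      rw [map_smul, smul_eq_mul, logLin_tmul', one_mul, uMap_coe]
      rfl
    rw [h1, ← Fintype.sum_bijective g hgbij (fun m : ZMod n =>
      ξ ^ (-m).val * (L₀ (y j - ι j ζ ^ (-m).val * ι j (β i)) -
        L₀ (y j - ι j ζ ^ (1 - m).val * ι j (β i)))) _ (fun m => ?_)]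
    · rw [weights hξn hn (fun r : ZMod n => L₀ (y j - ι j ζ ^ r.val * ι j (β i)))]
      congr 1
      refine (Fintype.sum_equiv (ZMod.finEquiv n).toEquiv _ _ fun r => ?_).symm
      have hr : ((ZMod.finEquiv n).toEquiv r).val = (r : ℕ) := by
        cases n with
        | zero => exact absurd rfl hn0
        | succ n => rfl
      rw [hr]
    · rw [hginv, hχg]
      congr 1
      rw [← log_conj hL₀ hn hιζ (hyne i j) m]
      have h2 : L (σ j (g m ((ε i : 𝓞 H) : H))) = L₀ (σ j (g m ((ε i : 𝓞 H) : H))) :=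
        log_unique hL hL₀ ((σ j).comp (g m : H →+* H)) (ε i)
      rw [h2, hε, map_div₀, map_sub, map_sub, map_mul, hgθ]
      have h3 : ∀ x : k, g m (jkH x) = jkH x := fun x => (g m).commutes _
      have h4 : g m zH = zH := (g m).commutes _
      rw [h3, h4, map_div₀, map_sub, map_sub, map_mul, map_mul, map_pow, hσk]
      have h5 : σ j zH = ι j ζ := hσk j ζ
      rw [h5]
  have hM : (Matrix.of fun i j => logLin hL (σ j) (xu χ (Additive.ofMul (ε i)))) =
      (1 - ξ⁻¹) • (Matrix.of fun i j => ∑ r : Fin n, ξ ^ (r : ℕ) *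
        L₀ (y j - ι j ζ ^ (r : ℕ) * ι j (β i))) := by
    ext i j
    rw [Matrix.of_apply, hentry, Matrix.smul_apply, Matrix.of_apply, smul_eq_mul]
  rw [hM, Matrix.det_smul]
  refine mul_ne_zero (pow_ne_zero _ ?_) (hexc ι y ξ hξn hξ1 ?_ ?_)
  · rw [sub_ne_zero]
    intro h1
    exact hξ1 (inv_eq_one.1 h1.symm)
  · intro j
    rw [Finset.prod_congr rfl fun i _ => by rw [hypow j]]
    have h2 : (t : ℂ_[p]) ^ d = ∏ _i : Fin d, (t : ℂ_[p]) := by simp
    rw [h2, ← Finset.prod_mul_distrib]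
    have h3 := congrArg (eF j) hw
    rw [map_prod, map_one] at h3
    rw [← h3]
    refine Finset.prod_congr rfl fun i _ => ?_
    have h4 : eF j (v i) = eF j w - (b i : ℂ_[p]) * (t : ℂ_[p]) := by
      change eF j (w - (b i : F) * (t : F)) = _
      rw [map_sub, map_mul, map_intCast, map_intCast]
    rw [h4]
    field_simp
  · intro j j' hjj
    simp only [hypow] at hjj
    have h2 : eF j w = eF j' w := by
      field_simp at hjj
      exact hjj
    apply eF.injective
    have hint : Algebra.IsAlgebraic ℚ F := inferInstance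
    have htop : Algebra.adjoin ℚ {w} = ⊤ := by
      rw [← IntermediateField.adjoin_simple_toSubalgebra_of_isAlgebraic
        (Algebra.IsAlgebraic.isAlgebraic _), hgen]
      rfl
    apply (RingHom.equivRatAlgHom F ℂ_[p]).injective
    apply AlgHom.ext_of_adjoin_eq_top htop
    intro x hx
    rw [Set.mem_singleton_iff] at hx
    subst hx
    exact h2

/-- **Main theorem.** -/
theorem main_thm (p : ℕ) [Fact p.Prime] (k : Type) [Field k] [NumberField k] [IsTotallyComplex k]
    (hk : Module.finrank ℚ k = 2) {n : ℕ} (hn : 1 < n) {ζ : k} (hζ : IsPrimitiveRoot ζ n)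
    (d : ℕ) (hd : 0 < d) (b : Fin d → ℤ)
    (hb : Function.Injective b) (a : 𝓞 k) (β : Fin d → 𝓞 k)
    (hβ : ∀ i, (b i : 𝓞 k) - a = β i ^ n) (hβ0 : ∀ i, β i ≠ 0) :
    ∃ S₀ : Set ℤ, S₀.Finite ∧ ∀ t : ℤ, t ∉ S₀ →
      ∀ (F K : Type) [Field F] [NumberField F] [Field K] [NumberField K] [Algebra F K]
        [Algebra k K] (w : F), Module.finrank F K = 2 →
        ∏ i, (w - (b i : F) * (t : F)) = 1 → IntermediateField.adjoin ℚ {w} = ⊤ →
        Module.finrank ℚ F = d ∧ IsTotallyReal F ∧ IsTotallyComplex K ∧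
        ∀ α : K, (t : K) * α = algebraMap F K w - algebraMap k K a * (t : K) →
          Irreducible (X ^ n - C α : K[X]) ∧
          ∀ (H : Type) [Field H] [NumberField H] [Algebra K H] (θ : H),
            Module.finrank K H = n → θ ^ n = algebraMap K H α →
            ∀ S : Set (K →+* ℂ_[p]), IsCMType p F K S →
              ∀ χ : (H ≃ₐ[K] H) →* ℂ_[p]ˣ, χ ≠ 1 → SigmaLeopoldt p K H S χ := by
  classical
  have hn0 : 0 < n := by omega
  obtain ⟨L₀, hL₀⟩ := exists_iwasawaLog p
  obtain ⟨S₁, hS₁, hS₁'⟩ := exc_set p k hd hn0 b hb (a : k) ζ hζ (fun i => (β i : k))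
    (fun i => by
      have h1 := congrArg (algebraMap (𝓞 k) k) (hβ i)
      rw [map_sub, map_intCast, map_pow] at h1
      exact h1)
    (fun i h => hβ0 i (RingOfIntegers.ext (h.trans (map_zero _).symm))) L₀ hL₀
  set M : ℤ := 2 ^ n with hM
  refine ⟨S₁ ∪ Set.Icc (-M) M, hS₁.union (Set.finite_Icc _ _), ?_⟩
  intro t ht F K _ _ _ _ _ _ w hFK hw hgen
  rw [Set.mem_union, not_or] at ht
  obtain ⟨ht1, ht2⟩ := ht
  have ht3 : M < |t| := by
    rw [Set.mem_Icc, ← abs_le] at ht2
    exact lt_of_not_ge ht2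
  have hM4 : 4 ≤ M := by
    rw [hM]
    calc (4 : ℤ) = 2 ^ 2 := by norm_num
      _ ≤ 2 ^ n := pow_le_pow_right₀ (by norm_num) hn
  have ht0 : t ≠ 0 := by
    rintro rfl
    rw [abs_zero] at ht3
    omega
  have hw' : ∏ i, (w - ((b i * t : ℤ) : F)) = 1 := by
    rw [← hw]
    refine Finset.prod_congr rfl fun i _ => ?_
    push_cast
    ring
  have hgap : ∀ i j, i ≠ j → 3 ≤ |b i * t - b j * t| := by
    intro i j hij
    have h1 : b i - b j ≠ 0 := sub_ne_zero.2 fun h => hij (hb h)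
    have h2 := Int.one_le_abs h1
    rw [← sub_mul, abs_mul]
    nlinarith
  have hinj : Function.Injective fun i => b i * t := by
    intro i j hij
    exact hb (mul_right_cancel₀ ht0 hij)
  have hFd : Module.finrank ℚ F = d :=
    Pool.Agent.H637R2.Leo.finrank_eq hd (fun i => b i * t) hinj w hw' hgen
  have hFr : IsTotallyReal F := totally_real hd (fun i => b i * t) hgap F w hw' hgen
  have hKc : IsTotallyComplex K := isTotallyComplex_of_algebra k K
  have hkK : Module.finrank k K = d := by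
    have h1 := Module.finrank_mul_finrank ℚ k K
    have h2 := Module.finrank_mul_finrank ℚ F K
    rw [hk] at h1
    rw [hFd, hFK] at h2
    omega
  have hwK : ∏ i, (algebraMap F K w - (b i : K) * (t : K)) = 1 := by
    have h1 := congrArg (algebraMap F K) hw
    simp only [map_prod, map_sub, map_mul, map_intCast, map_one] at h1
    exact h1
  refine ⟨hFd, hFr, hKc, ?_⟩
  intro α hα
  have hnp : ∀ q : ℕ, q.Prime → q ∣ n → ∀ γ : K, γ ^ q ≠ α := by
    intro q hq hqn γ hγ
    obtain ⟨m, hm⟩ := hqn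
    have hζq : IsPrimitiveRoot (ζ ^ m) q := hζ.pow hn0 (by rw [hm]; ring)
    refine nonpow hk hd hkK b hb a hq.two_le hζq (fun i => β i ^ m) ?_ ?_ t ?_ _ hwK γ ?_
    · intro i
      rw [hβ i, hm, ← pow_mul]
      congr 1
      ring
    · intro i
      exact pow_ne_zero _ (hβ0 i)
    · refine lt_of_le_of_lt ?_ ht3
      rw [hM]
      exact pow_le_pow_right₀ (by norm_num) (Nat.le_of_dvd hn0 ⟨m, hm⟩)
    · rw [hγ]
      exact hα
  have hα0 : α ≠ 0 := by
    rintro rfl
    obtain ⟨q, hq, hqn⟩ := Nat.exists_prime_and_dvd (by omega : n ≠ 1)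
    exact hnp q hq hqn 0 (zero_pow hq.ne_zero)
  have hζK : IsPrimitiveRoot (algebraMap k K ζ) n :=
    hζ.map_of_injective (algebraMap k K).injective
  have hirr := irr_of_prime hn0 hζK hα0 hnp
  refine ⟨hirr, ?_⟩
  intro H _ _ _ θ hKH hθ S hS χ hχ
  exact sl_one p hn hζ b a β hβ hL₀ t ht0 (hS₁' t ht1) hFK hFd w hw hgen α hα hirr hKH θ hθ S hS
    χ hχ

end Pool.Agent.H76.KF
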