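import Mathlib
import Pool.Agent.H76.KF.Cubes
import Pool.Graph.R_seed8.H637R2.Leo.Poly

set_option autoImplicit false

/-!
# The extension `K(α^(1/3))` is not Galois over `F`
-/

namespace Pool.Agent.H76.KF

open NumberField
open Pool.Agent.Y789.SG (place_unit place_ge conj_ne quadC prod_emb conj_comp)

section emb

variable {k F K : Type} [Field k] [NumberField k] [IsTotallyComplex k]
    [Field F] [NumberField F] [IsTotallyReal F] [Field K] [NumberField K] [Algebra F K]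
    [Algebra k K] [Algebra k ℂ]

/-- restriction of embeddings to `F` -/
noncomputable def rst (σ : K →ₐ[k] ℂ) : F →+* ℂ := (σ : K →+* ℂ).comp (algebraMap F K)

omit [IsTotallyComplex k] [NumberField F] [IsTotallyReal F] [NumberField k] [NumberField K] in
lemma rst_apply (σ : K →ₐ[k] ℂ) (x : F) : rst (F := F) σ x = σ (algebraMap F K x) := rfl

lemma rst_inj (hFK : Module.finrank F K = 2) :
    Function.Injective (rst (k := k) (F := F) (K := K)) := by
  intro σ σ' h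
  set E₀ : Subfield K := (σ : K →+* ℂ).eqLocusField (σ' : K →+* ℂ) with hE₀
  have hF : ∀ x : F, algebraMap F K x ∈ E₀ := fun x => RingHom.congr_fun h x
  have hk : ∀ x : k, algebraMap k K x ∈ E₀ := fun x => by
    change σ (algebraMap k K x) = σ' (algebraMap k K x)
    rw [σ.commutes, σ'.commutes]
  set E : IntermediateField F K := E₀.toIntermediateField hF with hE
  have hsimple : IsSimpleOrder (IntermediateField F K) :=
    IntermediateField.isSimpleOrder_of_finrank_prime F K (by rw [hFK]; exact Nat.prime_two)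
  rcases eq_bot_or_eq_top E with hb | ht
  · exfalso
    apply conj_ne (algebraMap k ℂ)
    ext x
    rw [ComplexEmbedding.conjugate_coe_eq]
    have h1 : algebraMap k K x ∈ E := hk x
    rw [hb, IntermediateField.mem_bot] at h1
    obtain ⟨f, hf⟩ := h1
    have h2 : algebraMap k ℂ x = rst (k := k) (F := F) (K := K) σ f := by
      rw [rst_apply, hf, σ.commutes]
    have h3 : ComplexEmbedding.IsReal (rst (k := k) (F := F) (K := K) σ) :=
      InfinitePlace.isReal_of_mk_isReal (IsTotallyReal.isReal (InfinitePlace.mk _))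
    rw [h2]
    exact RingHom.congr_fun (ComplexEmbedding.isReal_iff.1 h3) f
  · apply AlgHom.ext
    intro x
    have h1 : x ∈ E := by rw [ht]; trivial
    exact h1

lemma rst_bij (hk2 : Module.finrank ℚ k = 2) (hFK : Module.finrank F K = 2) :
    Function.Bijective (rst (k := k) (F := F) (K := K)) := by
  classical
  rw [Fintype.bijective_iff_injective_and_card]
  refine ⟨rst_inj hFK, ?_⟩
  rw [AlgHom.card, NumberField.Embeddings.card]
  have h1 := Module.finrank_mul_finrank ℚ k K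
  have h2 := Module.finrank_mul_finrank ℚ F K
  rw [hk2] at h1
  rw [hFK] at h2
  omega

lemma norm_alpha (hk2 : Module.finrank ℚ k = 2) (hFK : Module.finrank F K = 2) {d : ℕ}
    (hd : 0 < d) (hFd : Module.finrank ℚ F = d) (c : Fin d → ℤ) (w : F)
    (hw : ∏ i, (w - (c i : F)) = 1) (hgen : IntermediateField.adjoin ℚ {w} = ⊤) (x : k) :
    algebraMap k ℂ (Algebra.norm k (algebraMap F K w - algebraMap k K x)) =
      (-1) ^ d * (∏ i, (algebraMap k ℂ x - (c i : ℂ)) - 1) := by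
  classical
  rw [Algebra.norm_eq_prod_embeddings, ← prod_emb hd hFd c w hw hgen]
  have h1 : ∏ σ : F →+* ℂ, (algebraMap k ℂ x - σ w) =
      ∏ σ : K →ₐ[k] ℂ, (algebraMap k ℂ x - σ (algebraMap F K w)) :=
    (Fintype.prod_bijective _ (rst_bij hk2 hFK) _ _ fun σ => rfl).symm
  have hcard : Fintype.card (K →ₐ[k] ℂ) = d := by
    rw [Fintype.card_of_bijective (rst_bij (F := F) hk2 hFK), NumberField.Embeddings.card, hFd]
  have h3 : ((-1 : ℂ)) ^ d = ∏ _σ : K →ₐ[k] ℂ, (-1 : ℂ) := by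
    rw [Finset.prod_const, Finset.card_univ, hcard]
  rw [h1, h3, ← Finset.prod_mul_distrib]
  refine Finset.prod_congr rfl fun σ _ => ?_
  rw [map_sub, AlgHom.commutes]
  ring

end emb

section

variable {k : Type} [Field k] [NumberField k] (hk2 : Module.finrank ℚ k = 2) [IsTotallyComplex k]

include hk2 in
theorem nondih {ω : 𝓞 k} (hω : ω ^ 2 + ω + 1 = 0) {d : ℕ} (hd : 0 < d) (b : Fin d → ℤ)
    (a : 𝓞 k) (β : Fin d → 𝓞 k) (hβ : ∀ i, (b i : 𝓞 k) - a = β i ^ 3) (hβ0 : ∀ i, β i ≠ 0) :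
    ∃ M : ℤ, ∀ t : ℤ, M ≤ |t| → ∀ (F K : Type) [Field F] [NumberField F] [IsTotallyReal F]
      [Field K] [NumberField K] [IsTotallyComplex K] [Algebra F K] [Algebra k K],
      Module.finrank F K = 2 → Module.finrank ℚ F = d → ∀ w : F,
      ∏ i, (w - (b i : F) * (t : F)) = 1 → IntermediateField.adjoin ℚ {w} = ⊤ →
      ∀ c : K ≃ₐ[F] K, c ≠ 1 → ∀ α : K, (t : K) * α = algebraMap F K w - algebraMap k K a * t →
      (∀ γ : K, γ ^ 3 ≠ α * c α) ∧
      ((∀ m : ℤ, ∏ i, β i ^ 3 ≠ (m : 𝓞 k)) → ∀ γ : K, γ ^ 3 ≠ α ^ 2 * c α) := by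
  classical
  obtain ⟨φ⟩ : Nonempty (k →+* ℂ) := inferInstance
  let _ : Algebra k ℂ := φ.toAlgebra
  have hφ : ∀ x : k, algebraMap k ℂ x = φ x := fun _ => rfl
  set ψ : 𝓞 k →+* ℂ := φ.comp (algebraMap (𝓞 k) k) with hψ
  have hψc : ∀ x : 𝓞 k, φ (x : k) = ψ x := fun _ => rfl
  have hψ1 : ∀ x : 𝓞 k, x ≠ 0 → 1 ≤ ‖ψ x‖ := fun x hx => place_ge hk2 (InfinitePlace.mk φ) x hx
  have hψinj : Function.Injective ψ := φ.injective.comp (RingOfIntegers.coe_injective)
  set B : 𝓞 k := ∏ i, β i with hB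
  have hB0 : B ≠ 0 := Finset.prod_ne_zero_iff.2 fun i _ => hβ0 i
  set z : ℂ := ψ B with hz
  have hz0 : z ≠ 0 := (map_ne_zero_iff ψ hψinj).2 hB0
  obtain ⟨T1, N, -, hN⟩ := quadC hk2 φ B
  obtain ⟨τ, N', hτ, -⟩ := quadC hk2 φ (B ^ 3)
  rw [hψc, ← hz] at hN
  rw [hψc, map_pow, ← hz, map_pow] at hτ
  have hN0 : N ≠ 0 := by
    rintro rfl
    rw [Int.cast_zero, mul_eq_zero] at hN
    rcases hN with h | h
    · exact hz0 h
    · exact hz0 ((map_eq_zero _).1 h)
  have hNk : (N : 𝓞 k) ≠ 0 := by exact_mod_cast hN0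
  set s : ℤ := (-1) ^ d with hs
  have hs2 : s ^ 2 = 1 := by rw [hs, ← pow_mul, mul_comm, pow_mul]; norm_num
  have hsC : ((-1 : ℂ)) ^ d = (s : ℂ) := by rw [hs]; push_cast; rfl
  have hs2C : (s : ℂ) ^ 2 = 1 := by exact_mod_cast congrArg (fun x : ℤ => (x : ℂ)) hs2
  obtain ⟨M1, hM1⟩ := cubes ψ hψ1 hω (N : 𝓞 k) (-(s : 𝓞 k) * (τ : 𝓞 k)) 1 0 hNk
  obtain ⟨M2, hM2⟩ := cubes ψ hψ1 hω ((N : 𝓞 k) * B) (-(s : 𝓞 k) * (2 * (N : 𝓞 k) ^ 3 + B ^ 6))
    ((τ : 𝓞 k) + B ^ 3) (-(s : 𝓞 k)) (mul_ne_zero hNk hB0)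
  refine ⟨max 1 (max M1 M2), ?_⟩
  intro t ht F K _ _ _ _ _ _ _ _ hFK hFd w hw hgen c hc α hα
  have ht1 : 1 ≤ |t| := (le_max_left _ _).trans ht
  have ht0 : t ≠ 0 := by
    rintro rfl
    rw [abs_zero] at ht1
    omega
  set T : ℤ := t ^ d with hT
  have hTt : |t| ≤ |T| := by
    rw [hT, abs_pow]
    calc |t| = |t| ^ 1 := (pow_one _).symm
      _ ≤ |t| ^ d := pow_le_pow_right₀ ht1 hd
  have hTM1 : M1 ≤ |T| := (le_max_left M1 M2).trans ((le_max_right _ _).trans (ht.trans hTt))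
  have hTM2 : M2 ≤ |T| := (le_max_right M1 M2).trans ((le_max_right _ _).trans (ht.trans hTt))
  have hT0 : T ≠ 0 := pow_ne_zero _ ht0
  have hTC : (T : ℂ) ≠ 0 := by exact_mod_cast hT0
  have hdK : Module.finrank k K = d := by
    have h1 := Module.finrank_mul_finrank ℚ k K
    have h2 := Module.finrank_mul_finrank ℚ F K
    rw [hk2] at h1
    rw [hFK, hFd] at h2
    omega
  -- the norm of `α`
  have hw' : ∏ i, (w - ((b i * t : ℤ) : F)) = 1 := by
    rw [← hw]
    refine Finset.prod_congr rfl fun i _ => ?_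
    push_cast
    ring
  set A : k := Algebra.norm k α with hA
  set A' : k := Algebra.norm k (c α) with hA'
  have hnA : (T : ℂ) * φ A = T * z ^ 3 - s := by
    have h1 := norm_alpha (K := K) hk2 hFK hd hFd (fun i => b i * t) w hw' hgen ((a : k) * t)
    have h2 : algebraMap F K w - algebraMap k K ((a : k) * t) =
        algebraMap k K (t : k) * α := by
      rw [map_mul, map_intCast, hα]
    rw [h2, map_mul, Algebra.norm_algebraMap, hdK, hφ, map_mul, map_pow, map_intCast, ← hA] at h1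
    have h3 : (T : ℂ) = (t : ℂ) ^ d := by rw [hT]; push_cast; rfl
    rw [← h3] at h1
    rw [h1]
    have h4 : ∀ i, algebraMap k ℂ ((a : k) * t) - ((b i * t : ℤ) : ℂ) =
        (-1) * (t : ℂ) * ψ (β i) ^ 3 := by
      intro i
      have h5 := congrArg ψ (hβ i)
      rw [map_sub, map_intCast, map_pow] at h5
      rw [hφ, map_mul, map_intCast, ← h5]
      have h6 : φ (a : k) = ψ a := rfl
      rw [h6]
      push_cast
      ring
    rw [Finset.prod_congr rfl fun i _ => h4 i, Finset.prod_mul_distrib, Finset.prod_mul_distrib,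
      Finset.prod_pow, ← map_prod, ← hB, ← hz, Finset.prod_const, Finset.prod_const,
      Finset.card_univ, Fintype.card_fin, ← h3, hsC]
    linear_combination (T : ℂ) * z ^ 3 * hs2C
  have hconj := conj_comp hFK c hc
  have hnA' : φ A' = (starRingEnd ℂ) (φ A) := by
    have h1 := Algebra.norm_eq_prod_embeddings k ℂ α
    have h2 := Algebra.norm_eq_prod_embeddings k ℂ (c α)
    rw [hφ] at h1 h2
    rw [hA', hA, h1, h2, map_prod]
    exact Finset.prod_congr rfl fun σ _ => hconj (σ : K →+* ℂ) α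
  have hnA2 : (T : ℂ) * φ A' = T * (starRingEnd ℂ) z ^ 3 - s := by
    have h1 := congrArg (starRingEnd ℂ) hnA
    rw [map_mul, map_sub, map_mul, map_pow, map_intCast, map_intCast] at h1
    rw [hnA', h1]
  set z' : ℂ := (starRingEnd ℂ) z with hz'
  -- integrality of `T ν`
  have hint : ∀ (x : k) (y : 𝓞 k), ((T : k) * x) ^ 3 = (y : k) →
      ∃ X : 𝓞 k, (X : k) = (T : k) * x ∧ X ^ 3 = y := by
    intro x y hxy
    have h1 : IsIntegral ℤ ((T : k) * x) := by
      refine IsIntegral.of_pow (n := 3) (by norm_num) ?_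
      rw [hxy]
      exact RingOfIntegers.isIntegral_coe _
    refine ⟨⟨_, h1⟩, rfl, ?_⟩
    apply RingOfIntegers.ext
    exact hxy
  constructor
  · intro γ hγ
    set ν : k := Algebra.norm k γ with hν
    have hν3 : ν ^ 3 = A * A' := by rw [hν, hA, hA', ← map_pow, hγ, map_mul]
    obtain ⟨X, -, hX⟩ := hint ν (((T : 𝓞 k) * (N : 𝓞 k)) ^ 3 +
      (T : 𝓞 k) ^ 2 * (-(s : 𝓞 k) * (τ : 𝓞 k)) + (T : 𝓞 k) * 1 + 0) (by
        apply φ.injective
        rw [hψc]
        simp only [map_add, map_mul, map_pow, map_neg, map_intCast, map_one, map_zero]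
        have h1 : φ ν ^ 3 = φ A * φ A' := by rw [← map_pow, hν3, map_mul]
        have h2 : ((T : ℂ) * φ ν) ^ 3 = T * ((T * φ A) * (T * φ A')) := by
          rw [mul_pow, h1]; ring
        rw [h2, hnA, hnA2, ← hτ, ← hN]
        linear_combination (T : ℂ) * hs2C)
    obtain ⟨η, -, h2, h3⟩ := hM1 T hTM1 X hX
    have hη : η = 0 := pow_eq_zero_iff (by norm_num : (3 : ℕ) ≠ 0) |>.1 h3
    rw [hη] at h2
    norm_num at h2
  · intro hm γ hγ
    set ν : k := Algebra.norm k γ with hν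
    have hν3 : ν ^ 3 = A ^ 2 * A' := by
      rw [hν, hA, hA', ← map_pow, hγ, map_mul, map_pow]
    obtain ⟨X, -, hX⟩ := hint ν (((T : 𝓞 k) * ((N : 𝓞 k) * B)) ^ 3 +
      (T : 𝓞 k) ^ 2 * (-(s : 𝓞 k) * (2 * (N : 𝓞 k) ^ 3 + B ^ 6)) +
      (T : 𝓞 k) * ((τ : 𝓞 k) + B ^ 3) + -(s : 𝓞 k)) (by
        apply φ.injective
        rw [hψc]
        simp only [map_add, map_mul, map_pow, map_neg, map_intCast, map_ofNat]
        have h1 : φ ν ^ 3 = φ A ^ 2 * φ A' := by rw [← map_pow, hν3, map_mul, map_pow]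
        have h2 : ((T : ℂ) * φ ν) ^ 3 = (T * φ A) ^ 2 * (T * φ A') := by
          rw [mul_pow, h1]; ring
        rw [h2, hnA, hnA2, ← hτ, ← hN, ← hz]
        have hs3 : (s : ℂ) ^ 3 = s := by linear_combination (s : ℂ) * hs2C
        linear_combination (T * (z' ^ 3 + 2 * z ^ 3)) * hs2C - hs3)
    obtain ⟨η, h1, h2, -⟩ := hM2 T hTM2 X hX
    have e1 := congrArg ψ h1
    have e2 := congrArg ψ h2
    simp only [map_add, map_mul, map_pow, map_neg, map_intCast, map_ofNat] at e1 e2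
    rw [← hz, ← hN] at e1 e2
    rw [← hτ] at e2
    set y : ℂ := ψ η with hy
    -- `u = z ^ 3`, `v = z' ^ 3`
    have h4 : (z ^ 3) ^ 2 * (z ^ 3 - z' ^ 3) ^ 2 = 0 := by
      have h5 : 9 * (z * z' * z) ^ 4 * y ^ 2 = (z ^ 3) ^ 2 * (2 * z' ^ 3 + z ^ 3) ^ 2 := by
        have h6 : (3 * (z * z' * z) ^ 2 * y) ^ 2 =
            (-(s : ℂ) * (2 * (z * z') ^ 3 + z ^ 6)) ^ 2 := by rw [e1]
        linear_combination h6 + (2 * (z * z') ^ 3 + z ^ 6) ^ 2 * hs2C
      linear_combination (-1 : ℂ) * h5 + 3 * (z * z' * z) ^ 3 * e2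
    have h5 : z ^ 3 = z' ^ 3 := by
      have h6 := (mul_eq_zero.1 h4).resolve_left (pow_ne_zero _ (pow_ne_zero _ hz0))
      exact sub_eq_zero.1 (pow_eq_zero_iff (by norm_num : (2 : ℕ) ≠ 0) |>.1 h6)
    have h6 : 2 * z ^ 3 = (τ : ℂ) := by rw [← hτ, ← h5]; ring
    have h7 : τ ^ 2 = 4 * N ^ 3 := by
      have : (τ : ℂ) ^ 2 = 4 * (N : ℂ) ^ 3 := by
        rw [← h6, ← hN, mul_pow z z', ← h5]
        ring
      exact_mod_cast this
    have h8 : Even τ := by
      have : Even (τ ^ 2) := ⟨2 * N ^ 3, by rw [h7]; ring⟩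
      exact (Int.even_pow.1 this).1
    obtain ⟨m, hm'⟩ := h8
    apply hm m
    apply hψinj
    rw [Finset.prod_pow, ← hB, map_pow, ← hz, map_intCast]
    have h9 : (τ : ℂ) = m + m := by exact_mod_cast congrArg (fun x : ℤ => (x : ℂ)) hm'
    linear_combination h6 / 2 + h9 / 2

end

end Pool.Agent.H76.KF
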