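import Mathlib
import Pool.Agent.H76.KF.NonDih

set_option autoImplicit false

/-!
# The extension `K(α^(1/4))` is not abelian over `F`
-/

namespace Pool.Agent.H76.KF

open NumberField
open Pool.Agent.Y789.SG (place_ge conj_ne quadC conj_comp)

section

variable {k : Type} [Field k] [NumberField k] (hk2 : Module.finrank ℚ k = 2) [IsTotallyComplex k]

include hk2 in
lemma int_of_sq (φ : k →+* ℂ) (X : 𝓞 k) (D : ℤ) (hD : 0 ≤ D) (hX : X ^ 2 = (D : 𝓞 k)) :
    ∃ Y : ℤ, X = (Y : 𝓞 k) := by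
  obtain ⟨T, N, hT, hN⟩ := quadC hk2 φ X
  set u : ℂ := φ (X : k) with hu
  have hinj : Function.Injective (fun x : 𝓞 k => φ (x : k)) :=
    φ.injective.comp RingOfIntegers.coe_injective
  have hu2 : u ^ 2 = (D : ℂ) := by
    have h1 := congrArg (fun x : 𝓞 k => φ (x : k)) hX
    have h2 : φ ((X ^ 2 : 𝓞 k) : k) = u ^ 2 := by
      have : ((X ^ 2 : 𝓞 k) : k) = (X : k) ^ 2 := map_pow (algebraMap (𝓞 k) k) X 2
      rw [this, map_pow]
    have h3 : φ ((D : 𝓞 k) : k) = (D : ℂ) := by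
      have : ((D : 𝓞 k) : k) = (D : k) := map_intCast (algebraMap (𝓞 k) k) D
      rw [this, map_intCast]
    rw [h2, h3] at h1
    exact h1
  have hc2 : (starRingEnd ℂ) u ^ 2 = (D : ℂ) := by
    rw [← map_pow, hu2, map_intCast]
  have hreal : (starRingEnd ℂ) u = u := by
    have h1 : ((starRingEnd ℂ) u - u) * ((starRingEnd ℂ) u + u) = 0 := by
      linear_combination hc2 - hu2
    rcases mul_eq_zero.1 h1 with h | h
    · exact sub_eq_zero.1 h
    · have h2 : (starRingEnd ℂ) u = -u := by linear_combination h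
      have h3 : (N : ℂ) = -(D : ℂ) := by rw [← hN, h2, ← hu2]; ring
      have h4 : N = -D := by exact_mod_cast h3
      have h5 : 0 ≤ N := by
        have h6 : (N : ℂ) = ((Complex.normSq u : ℝ) : ℂ) := by rw [← hN, Complex.mul_conj]
        have h7 : (N : ℝ) = Complex.normSq u := by exact_mod_cast h6
        have h8 : (0 : ℝ) ≤ (N : ℝ) := by rw [h7]; exact Complex.normSq_nonneg _
        exact_mod_cast h8
      have h6 : D = 0 := by omega
      have h7 : u = 0 := by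
        rw [h6, Int.cast_zero] at hu2
        exact pow_eq_zero_iff (by norm_num : (2 : ℕ) ≠ 0) |>.1 hu2
      rw [h7, map_zero]
  rw [hreal] at hT
  have hTD : T ^ 2 = 4 * D := by
    have : (T : ℂ) ^ 2 = 4 * (D : ℂ) := by rw [← hT, ← hu2]; ring
    exact_mod_cast this
  have heven : Even T := by
    have : Even (T ^ 2) := ⟨2 * D, by rw [hTD]; ring⟩
    exact (Int.even_pow.1 this).1
  obtain ⟨m, hm⟩ := heven
  refine ⟨m, hinj ?_⟩
  change φ (X : k) = φ ((m : 𝓞 k) : k)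
  have h3 : φ ((m : 𝓞 k) : k) = (m : ℂ) := by
    have : ((m : 𝓞 k) : k) = (m : k) := map_intCast (algebraMap (𝓞 k) k) m
    rw [this, map_intCast]
  rw [h3, ← hu]
  have h9 : (T : ℂ) = m + m := by exact_mod_cast congrArg (fun x : ℤ => (x : ℂ)) hm
  linear_combination hT / 2 + h9 / 2

include hk2 in
lemma int_of_sq' (φ : k →+* ℂ) {I : 𝓞 k} (hI : I ^ 2 = -1) (X : 𝓞 k) (D : ℤ)
    (hX : X ^ 2 = (D : 𝓞 k)) : ∃ Y : ℤ, Y ^ 2 = |D| := by
  have hinj : Function.Injective (Int.cast : ℤ → 𝓞 k) := Int.cast_injective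
  rcases le_or_gt 0 D with h | h
  · obtain ⟨Y, hY⟩ := int_of_sq hk2 φ X D h hX
    refine ⟨Y, hinj ?_⟩
    rw [abs_of_nonneg h, ← hX, hY]
    push_cast
    rfl
  · obtain ⟨Y, hY⟩ := int_of_sq hk2 φ (I * X) (-D) (by omega) (by
      rw [mul_pow, hI, hX]; push_cast; ring)
    refine ⟨Y, hinj ?_⟩
    rw [abs_of_neg h]
    push_cast
    rw [← hY, mul_pow, hI, hX]
    ring

lemma sq_gap {x y e : ℤ} (h : x ^ 2 = y ^ 2 + e) (he : e ≠ 0) : 2 * |y| - 1 ≤ |e| := by
  have hne : |x| ≠ |y| := by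
    intro h1
    apply he
    have h2 : x ^ 2 = y ^ 2 := by rw [← sq_abs x, ← sq_abs y, h1]
    omega
  have h3 : |x| ^ 2 = |y| ^ 2 + e := by rw [sq_abs, sq_abs]; exact h
  have hx := abs_nonneg x
  have hy := abs_nonneg y
  rcases lt_or_gt_of_ne hne with h1 | h1
  · have h4 : -e ≤ |e| := neg_le_abs e
    have h5 : |x| ≤ |y| - 1 := by omega
    nlinarith
  · have h4 : e ≤ |e| := le_abs_self e
    have h5 : |y| + 1 ≤ |x| := by omega
    nlinarith

include hk2 in
lemma norm_data (φ : k →+* ℂ) {n d : ℕ} (hd : 0 < d) (b : Fin d → ℤ)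
    (a : 𝓞 k) (β : Fin d → 𝓞 k) (hβ : ∀ i, (b i : 𝓞 k) - a = β i ^ n) (t : ℤ)
    {F K : Type} [Field F] [NumberField F] [IsTotallyReal F]
    [Field K] [NumberField K] [IsTotallyComplex K] [Algebra F K] [Algebra k K]
    (hFK : Module.finrank F K = 2) (hFd : Module.finrank ℚ F = d) (w : F)
    (hw : ∏ i, (w - (b i : F) * (t : F)) = 1) (hgen : IntermediateField.adjoin ℚ {w} = ⊤)
    (c : K ≃ₐ[F] K) (hc : c ≠ 1) (α : K)
    (hα : (t : K) * α = algebraMap F K w - algebraMap k K a * t) :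
    ((t ^ d : ℤ) : ℂ) * φ (Algebra.norm k α) =
      ((t ^ d : ℤ) : ℂ) * φ ((∏ i, β i : 𝓞 k) : k) ^ n - (((-1) ^ d : ℤ) : ℂ) ∧
    φ (Algebra.norm k (c α)) = (starRingEnd ℂ) (φ (Algebra.norm k α)) := by
  classical
  let _ : Algebra k ℂ := φ.toAlgebra
  have hφ : ∀ x : k, algebraMap k ℂ x = φ x := fun _ => rfl
  set ψ : 𝓞 k →+* ℂ := φ.comp (algebraMap (𝓞 k) k) with hψ
  have hψc : ∀ x : 𝓞 k, φ (x : k) = ψ x := fun _ => rfl
  set B : 𝓞 k := ∏ i, β i with hB
  set z : ℂ := ψ B with hz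
  rw [hψc, ← hz]
  set s : ℤ := (-1) ^ d with hs
  have hs2 : s ^ 2 = 1 := by rw [hs, ← pow_mul, mul_comm, pow_mul]; norm_num
  have hsC : ((-1 : ℂ)) ^ d = (s : ℂ) := by rw [hs]; push_cast; rfl
  have hs2C : (s : ℂ) ^ 2 = 1 := by exact_mod_cast congrArg (fun x : ℤ => (x : ℂ)) hs2
  set T : ℤ := t ^ d with hT
  have hdK : Module.finrank k K = d := by
    have h1 := Module.finrank_mul_finrank ℚ k K
    have h2 := Module.finrank_mul_finrank ℚ F K
    rw [hk2] at h1
    rw [hFK, hFd] at h2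
    omega
  have hw' : ∏ i, (w - ((b i * t : ℤ) : F)) = 1 := by
    rw [← hw]
    refine Finset.prod_congr rfl fun i _ => ?_
    push_cast
    ring
  constructor
  · have h1 := norm_alpha (K := K) hk2 hFK hd hFd (fun i => b i * t) w hw' hgen ((a : k) * t)
    have h2 : algebraMap F K w - algebraMap k K ((a : k) * t) =
        algebraMap k K (t : k) * α := by
      rw [map_mul, map_intCast, hα]
    rw [h2, map_mul, Algebra.norm_algebraMap, hdK, hφ, map_mul, map_pow, map_intCast] at h1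
    have h3 : (T : ℂ) = (t : ℂ) ^ d := by rw [hT]; push_cast; rfl
    rw [← h3] at h1
    rw [h1]
    have h4 : ∀ i, algebraMap k ℂ ((a : k) * t) - ((b i * t : ℤ) : ℂ) =
        (-1) * (t : ℂ) * ψ (β i) ^ n := by
      intro i
      have h5 := congrArg ψ (hβ i)
      rw [map_sub, map_intCast, map_pow] at h5
      rw [hφ, map_mul, map_intCast, ← h5]
      have h6 : φ (a : k) = ψ a := rfl
      rw [h6]
      push_cast
      ring
    rw [Finset.prod_congr rfl fun i _ => h4 i, Finset.prod_mul_distrib, Finset.prod_mul_distrib,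
      Finset.prod_pow, ← map_prod, ← hB, ← hz, Finset.prod_const, Finset.prod_const,
      Finset.card_univ, Fintype.card_fin, ← h3, hsC]
    linear_combination (T : ℂ) * z ^ n * hs2C
  · have hconj := conj_comp hFK c hc
    have h1 := Algebra.norm_eq_prod_embeddings k ℂ α
    have h2 := Algebra.norm_eq_prod_embeddings k ℂ (c α)
    rw [hφ] at h1 h2
    rw [h1, h2, map_prod]
    exact Finset.prod_congr rfl fun σ _ => hconj (σ : K →+* ℂ) α

include hk2 in
theorem nondih4 {I : 𝓞 k} (hI : I ^ 2 = -1) {d : ℕ} (hd : 0 < d) (b : Fin d → ℤ)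
    (a : 𝓞 k) (β : Fin d → 𝓞 k) (hβ : ∀ i, (b i : 𝓞 k) - a = β i ^ 4) (hβ0 : ∀ i, β i ≠ 0) :
    ∃ M : ℤ, ∀ t : ℤ, M ≤ |t| → ∀ (F K : Type) [Field F] [NumberField F] [IsTotallyReal F]
      [Field K] [NumberField K] [IsTotallyComplex K] [Algebra F K] [Algebra k K],
      Module.finrank F K = 2 → Module.finrank ℚ F = d → ∀ w : F,
      ∏ i, (w - (b i : F) * (t : F)) = 1 → IntermediateField.adjoin ℚ {w} = ⊤ →
      ∀ c : K ≃ₐ[F] K, c ≠ 1 → ∀ α : K, (t : K) * α = algebraMap F K w - algebraMap k K a * t →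
      (∀ γ : K, γ ^ 4 ≠ α * c α) ∧
      ((∀ m : ℤ, ∏ i, β i ^ 4 ≠ (m : 𝓞 k)) → ∀ γ : K, γ ^ 2 ≠ α * c α) := by
  classical
  obtain ⟨φ⟩ : Nonempty (k →+* ℂ) := inferInstance
  set ψ : 𝓞 k →+* ℂ := φ.comp (algebraMap (𝓞 k) k) with hψ
  have hψc : ∀ x : 𝓞 k, φ (x : k) = ψ x := fun _ => rfl
  have hψinj : Function.Injective ψ := φ.injective.comp (RingOfIntegers.coe_injective)
  set B : 𝓞 k := ∏ i, β i with hB
  have hB0 : B ≠ 0 := Finset.prod_ne_zero_iff.2 fun i _ => hβ0 i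
  set z : ℂ := ψ B with hz
  have hz0 : z ≠ 0 := (map_ne_zero_iff ψ hψinj).2 hB0
  obtain ⟨T1, N, -, hN⟩ := quadC hk2 φ B
  obtain ⟨τ, N', hτ, -⟩ := quadC hk2 φ (B ^ 4)
  rw [hψc, ← hz] at hN
  rw [hψc, map_pow, ← hz, map_pow] at hτ
  have hN0 : N ≠ 0 := by
    rintro rfl
    rw [Int.cast_zero, mul_eq_zero] at hN
    rcases hN with h | h
    · exact hz0 h
    · exact hz0 ((map_eq_zero _).1 h)
  set s : ℤ := (-1) ^ d with hs
  have hs2 : s ^ 2 = 1 := by rw [hs, ← pow_mul, mul_comm, pow_mul]; norm_num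
  have hs2C : (s : ℂ) ^ 2 = 1 := by exact_mod_cast congrArg (fun x : ℤ => (x : ℂ)) hs2
  have hsabs : |s| = 1 := by
    rcases sq_eq_one_iff.1 hs2 with h | h <;> simp [h]
  refine ⟨2 + |τ| + |τ ^ 2 - 4 * N ^ 4|, ?_⟩
  intro t ht F K _ _ _ _ _ _ _ _ hFK hFd w hw hgen c hc α hα
  have ha1 := abs_nonneg τ
  have ha2 := abs_nonneg (τ ^ 2 - 4 * N ^ 4)
  have ht1 : 2 ≤ |t| := by omega
  have ht0 : t ≠ 0 := by
    rintro rfl
    rw [abs_zero] at ht1
    omega
  obtain ⟨hnA, hnA'⟩ := norm_data hk2 φ hd b a β hβ t hFK hFd w hw hgen c hc α hα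
  set T : ℤ := t ^ d with hT
  have hTt : |t| ≤ |T| := by
    rw [hT, abs_pow]
    calc |t| = |t| ^ 1 := (pow_one _).symm
      _ ≤ |t| ^ d := pow_le_pow_right₀ (by omega) hd
  have hT0 : T ≠ 0 := pow_ne_zero _ ht0
  have hTC : (T : ℂ) ≠ 0 := by exact_mod_cast hT0
  set A : k := Algebra.norm k α with hA
  set A' : k := Algebra.norm k (c α) with hA'
  rw [hψc, ← hB, ← hz, ← hs] at hnA
  set z' : ℂ := (starRingEnd ℂ) z with hz'
  have hnA2 : (T : ℂ) * φ A' = T * z' ^ 4 - s := by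
    have h1 := congrArg (starRingEnd ℂ) hnA
    rw [map_mul, map_sub, map_mul, map_pow, map_intCast, map_intCast] at h1
    rw [hnA', h1]
  -- the case of a square
  have key : (∀ m : ℤ, ∏ i, β i ^ 4 ≠ (m : 𝓞 k)) → ∀ γ : K, γ ^ 2 ≠ α * c α := by
    intro hm γ hγ
    set ν : k := Algebra.norm k γ with hν
    have hν2 : ν ^ 2 = A * A' := by rw [hν, hA, hA', ← map_pow, hγ, map_mul]
    set D : ℤ := N ^ 4 * T ^ 2 - s * T * τ + 1 with hD
    have hDC : ((T : ℂ) * φ ν) ^ 2 = (D : ℂ) := by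
      have h1 : φ ν ^ 2 = φ A * φ A' := by rw [← map_pow, hν2, map_mul]
      have h2 : ((T : ℂ) * φ ν) ^ 2 = (T * φ A) * (T * φ A') := by
        rw [mul_pow, h1]; ring
      rw [h2, hnA, hnA2, hD]
      push_cast
      rw [← hN, ← hτ]
      linear_combination hs2C
    have hint : IsIntegral ℤ ((T : k) * ν) := by
      refine IsIntegral.of_pow (n := 2) (by norm_num) ?_
      have h1 : ((T : k) * ν) ^ 2 = (D : k) := by
        apply φ.injective
        rw [map_pow, map_mul, map_intCast, map_intCast, hDC]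
      rw [h1]
      exact isIntegral_algebraMap (R := ℤ) (A := k) (x := D)
    obtain ⟨Y, hY⟩ := int_of_sq' hk2 φ hI ⟨_, hint⟩ D (by
      apply RingOfIntegers.ext
      apply φ.injective
      have h1 : φ (((D : ℤ) : 𝓞 k) : k) = (D : ℂ) := by
        have : ((D : 𝓞 k) : k) = (D : k) := map_intCast (algebraMap (𝓞 k) k) D
        rw [this, map_intCast]
      rw [h1, ← hDC]
      change φ (((T : k) * ν) ^ 2) = _
      rw [map_pow, map_mul, map_intCast])
    have hD0 : 0 ≤ D := by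
      have h1 : (D : ℂ) = ((Complex.normSq ((T : ℂ) * z ^ 4 - s) : ℝ) : ℂ) := by
        rw [← Complex.mul_conj, map_sub, map_mul, map_pow, map_intCast, map_intCast, ← hz', hD]
        push_cast
        rw [← hN, ← hτ]
        linear_combination -hs2C
      have h2 : (D : ℝ) = Complex.normSq ((T : ℂ) * z ^ 4 - s) := by exact_mod_cast h1
      have h3 : (0 : ℝ) ≤ (D : ℝ) := by rw [h2]; exact Complex.normSq_nonneg _
      exact_mod_cast h3
    rw [abs_of_nonneg hD0] at hY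
    have h4 : (2 * N ^ 2 * Y) ^ 2 = (2 * N ^ 4 * T - s * τ) ^ 2 + (4 * N ^ 4 - τ ^ 2) := by
      rw [mul_pow, hY, hD]
      linear_combination (-τ ^ 2) * hs2
    have hne : 4 * N ^ 4 - τ ^ 2 ≠ 0 := by
      intro h5
      have h6 : (z ^ 4 - z' ^ 4) ^ 2 = 0 := by
        have h7 : (4 : ℂ) * N ^ 4 - τ ^ 2 = 0 := by exact_mod_cast congrArg (fun x : ℤ => (x : ℂ)) h5
        rw [← hN, ← hτ] at h7
        linear_combination -h7
      have h7 : z ^ 4 = z' ^ 4 :=
        sub_eq_zero.1 (pow_eq_zero_iff (by norm_num : (2 : ℕ) ≠ 0) |>.1 h6)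
      have h8 : 2 * z ^ 4 = (τ : ℂ) := by rw [← hτ, ← h7]; ring
      have h9 : Even τ := by
        have : Even (τ ^ 2) := ⟨2 * N ^ 4, by linear_combination -h5⟩
        exact (Int.even_pow.1 this).1
      obtain ⟨m, hm'⟩ := h9
      apply hm m
      apply hψinj
      rw [Finset.prod_pow, ← hB, map_pow, ← hz, map_intCast]
      have h9 : (τ : ℂ) = m + m := by exact_mod_cast congrArg (fun x : ℤ => (x : ℂ)) hm'
      linear_combination h8 / 2 + h9 / 2
    have h5 := sq_gap h4 hne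
    have h6 : 2 * |T| - |τ| ≤ |2 * N ^ 4 * T - s * τ| := by
      have h7 : |2 * N ^ 4 * T| - |s * τ| ≤ |2 * N ^ 4 * T - s * τ| := abs_sub_abs_le_abs_sub _ _
      rw [abs_mul s τ, hsabs, one_mul] at h7
      have h8 : 2 * |T| ≤ |2 * N ^ 4 * T| := by
        rw [abs_mul]
        have h9 : (1 : ℤ) ≤ N ^ 4 := by
          have : 0 < N ^ 4 := by positivity
          omega
        have h10 : |2 * N ^ 4| = 2 * N ^ 4 := abs_of_nonneg (by positivity)
        rw [h10]
        have := abs_nonneg T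
        nlinarith
      linarith
    have h7 : |4 * N ^ 4 - τ ^ 2| = |τ ^ 2 - 4 * N ^ 4| := abs_sub_comm _ _
    rw [h7] at h5
    linarith
  refine ⟨?_, key⟩
  intro γ hγ
  by_cases hm : ∀ m : ℤ, ∏ i, β i ^ 4 ≠ (m : 𝓞 k)
  · exact key hm (γ ^ 2) (by rw [← hγ]; ring)
  · push Not at hm
    obtain ⟨m, hm⟩ := hm
    have hz4 : z ^ 4 = (m : ℂ) := by
      have h1 := congrArg ψ hm
      rw [Finset.prod_pow, ← hB, map_pow, ← hz, map_intCast] at h1
      exact h1
    have hz4' : z' ^ 4 = (m : ℂ) := by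
      rw [hz', ← map_pow, hz4, map_intCast]
    have hm2 : m ^ 2 = N ^ 4 := by
      have : (m : ℂ) ^ 2 = (N : ℂ) ^ 4 := by
        rw [← hN, mul_pow, hz4', hz4]; ring
      exact_mod_cast this
    set ν : k := Algebra.norm k γ with hν
    have hν4 : ν ^ 4 = A * A' := by rw [hν, hA, hA', ← map_pow, hγ, map_mul]
    set D : ℤ := T * (T * m - s) with hD
    have hDC : (((T : ℂ) * φ ν) ^ 2) ^ 2 = (D : ℂ) ^ 2 := by
      have h1 : φ ν ^ 4 = φ A * φ A' := by rw [← map_pow, hν4, map_mul]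
      have h2 : (((T : ℂ) * φ ν) ^ 2) ^ 2 = (T : ℂ) ^ 2 * ((T * φ A) * (T * φ A')) := by
        have h3 : (((T : ℂ) * φ ν) ^ 2) ^ 2 = (T : ℂ) ^ 4 * φ ν ^ 4 := by ring
        rw [h3, h1]; ring
      rw [h2, hnA, hnA2, hz4, hz4', hD]
      push_cast
      ring
    have hDC' : ∃ ε : ℤ, |ε| = 1 ∧ ((T : ℂ) * φ ν) ^ 2 = ((ε * D : ℤ) : ℂ) := by
      rcases sq_eq_sq_iff_eq_or_eq_neg.1 hDC with h | h
      · exact ⟨1, by simp, by rw [h]; push_cast; ring⟩
      · exact ⟨-1, by simp, by rw [h]; push_cast; ring⟩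
    obtain ⟨ε, hε, hDC'⟩ := hDC'
    have hint : IsIntegral ℤ ((T : k) * ν) := by
      refine IsIntegral.of_pow (n := 2) (by norm_num) ?_
      have h1 : ((T : k) * ν) ^ 2 = ((ε * D : ℤ) : k) := by
        apply φ.injective
        rw [map_pow, map_mul, map_intCast, map_intCast, hDC']
      rw [h1]
      exact isIntegral_algebraMap (R := ℤ) (A := k) (x := ε * D)
    obtain ⟨Y, hY⟩ := int_of_sq' hk2 φ hI ⟨_, hint⟩ (ε * D) (by
      apply RingOfIntegers.ext
      apply φ.injective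
      have h1 : φ (((ε * D : ℤ) : 𝓞 k) : k) = ((ε * D : ℤ) : ℂ) := by
        have : (((ε * D : ℤ) : 𝓞 k) : k) = ((ε * D : ℤ) : k) :=
          map_intCast (algebraMap (𝓞 k) k) _
        rw [this, map_intCast]
      rw [h1, ← hDC']
      change φ (((T : k) * ν) ^ 2) = _
      rw [map_pow, map_mul, map_intCast])
    rw [abs_mul, hε, one_mul] at hY
    -- `D = ± (N² T² ± T)`
    have hmN : m = N ^ 2 ∨ m = -N ^ 2 := by
      have h1 : m ^ 2 = (N ^ 2) ^ 2 := by rw [hm2]; ring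
      exact sq_eq_sq_iff_eq_or_eq_neg.1 h1
    have hT2 : 2 ≤ |T| := ht1.trans hTt
    have hNa : 1 ≤ |N| := Int.one_le_abs hN0
    have hfin : ∀ e : ℤ, |e| = |T| → Y ^ 2 = (N * T) ^ 2 + e → False := by
      intro e he hYe
      have he0 : e ≠ 0 := by
        rintro rfl
        rw [abs_zero] at he
        omega
      have h1 := sq_gap hYe he0
      rw [he, abs_mul] at h1
      nlinarith
    have hsT : |s * T| = |T| := by rw [abs_mul, hsabs, one_mul]
    have hNT : |T| < |N * T| ^ 2 := by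
      rw [abs_mul, mul_pow]
      nlinarith [abs_nonneg T, abs_nonneg N, mul_pos (by omega : 0 < |N|) (by omega : 0 < |T|)]
    rw [sq_abs] at hNT
    have hb1 : s * T ≤ |T| := by rw [← hsT]; exact le_abs_self _
    have hb2 : -(s * T) ≤ |T| := by rw [← hsT]; exact neg_le_abs _
    rcases hmN with h | h
    · have h1 : D = (N * T) ^ 2 + -(s * T) := by rw [hD, h]; ring
      have h2 : 0 ≤ D := by rw [h1]; linarith
      rw [abs_of_nonneg h2, h1] at hY
      exact hfin (-(s * T)) (by rw [abs_neg, hsT]) hY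
    · have h1 : -D = (N * T) ^ 2 + s * T := by rw [hD, h]; ring
      have h2 : D ≤ 0 := by linarith
      rw [abs_of_nonpos h2, h1] at hY
      exact hfin (s * T) hsT hY

end

end Pool.Agent.H76.KF
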