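import Mathlib
import Pool.Agent.H76.KF.NonDih4

set_option autoImplicit false

/-!
# The orders `3`, `4`, `6`
-/

namespace Pool.Agent.H76.KF

open NumberField

variable {k : Type} [Field k] [NumberField k]

lemma totient_le (hk2 : Module.finrank ℚ k = 2) {n : ℕ} {ζ : k} (hζ : IsPrimitiveRoot ζ n)
    (hn : 0 < n) : n.totient ≤ 2 := by
  have : NeZero n := ⟨hn.ne'⟩
  have h := IsPrimitiveRoot.lcm_totient_le_finrank (K := ℚ) hζ hζ (by
    rw [Nat.lcm_self]
    exact Polynomial.cyclotomic.irreducible_rat hn)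
  rwa [Nat.lcm_self, hk2] at h

lemma three_or_four (hk2 : Module.finrank ℚ k = 2) {n : ℕ} {ζ : k} (hζ : IsPrimitiveRoot ζ n)
    (hn : 3 ≤ n) : 3 ∣ n ∨ 4 ∣ n := by
  rcases Nat.eq_two_pow_or_exists_odd_prime_and_dvd n with ⟨m, hm⟩ | ⟨q, hq, hqn, hodd⟩
  · right
    have h2 : 2 ≤ m := by
      by_contra hcon
      have h3 : m = 0 ∨ m = 1 := by omega
      rcases h3 with rfl | rfl <;> omega
    obtain ⟨r, rfl⟩ := Nat.exists_eq_add_of_le h2
    exact ⟨2 ^ r, by rw [hm, pow_add]; norm_num⟩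
  · left
    have hn0 : 0 < n := by omega
    obtain ⟨m, hm⟩ := hqn
    have h1 := totient_le hk2 (hζ.pow hn0 (a := m) (b := q) (by rw [hm]; ring)) hq.pos
    rw [Nat.totient_prime hq] at h1
    have h2 := hq.two_le
    have h3 : q = 3 := by
      rcases hodd with ⟨j, hj⟩
      omega
    rw [hm, h3]
    exact dvd_mul_right _ _

/-- the extension `K(α^(1/n))` of `F` is not abelian, and not Galois if `∏ β_i^n ∉ ℤ` -/
theorem nondih_all (hk2 : Module.finrank ℚ k = 2) [IsTotallyComplex k] {n : ℕ} (hn : 3 ≤ n)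
    {ζ : k} (hζ : IsPrimitiveRoot ζ n) {d : ℕ} (hd : 0 < d) (b : Fin d → ℤ)
    (a : 𝓞 k) (β : Fin d → 𝓞 k) (hβ : ∀ i, (b i : 𝓞 k) - a = β i ^ n) (hβ0 : ∀ i, β i ≠ 0) :
    ∃ M : ℤ, ∀ t : ℤ, M ≤ |t| → ∀ (F K : Type) [Field F] [NumberField F] [IsTotallyReal F]
      [Field K] [NumberField K] [IsTotallyComplex K] [Algebra F K] [Algebra k K],
      Module.finrank F K = 2 → Module.finrank ℚ F = d → ∀ w : F,
      ∏ i, (w - (b i : F) * (t : F)) = 1 → IntermediateField.adjoin ℚ {w} = ⊤ →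
      ∀ c : K ≃ₐ[F] K, c ≠ 1 → ∀ α : K, (t : K) * α = algebraMap F K w - algebraMap k K a * t →
      (∀ γ : K, α * c α ≠ γ ^ n) ∧
      ((∀ m : ℤ, ∏ i, β i ^ n ≠ (m : 𝓞 k)) → ∀ γ : K, α ≠ γ ^ n * c α) := by
  have hn0 : 0 < n := by omega
  rcases three_or_four hk2 hζ hn with ⟨m, hm⟩ | ⟨m, hm⟩
  · have hω := hζ.pow hn0 (a := m) (b := 3) (by rw [hm]; ring)
    have hint : IsIntegral ℤ (ζ ^ m) := hω.isIntegral (by norm_num)
    have hω' : ((⟨ζ ^ m, hint⟩ : 𝓞 k)) ^ 2 + ⟨ζ ^ m, hint⟩ + 1 = 0 := by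
      apply RingOfIntegers.ext
      change (ζ ^ m) ^ 2 + ζ ^ m + 1 = 0
      have h1 := hω.geom_sum_eq_zero (by norm_num)
      rw [Finset.sum_range_succ, Finset.sum_range_succ, Finset.sum_range_one, pow_zero,
        pow_one] at h1
      linear_combination h1
    have hpow : ∀ i, (β i ^ m) ^ 3 = β i ^ n := fun i => by
      rw [hm, ← pow_mul, mul_comm m 3]
    obtain ⟨M, hM⟩ := nondih hk2 hω' hd b a (fun i => β i ^ m)
      (fun i => by rw [hpow]; exact hβ i) (fun i => pow_ne_zero _ (hβ0 i))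
    refine ⟨M, ?_⟩
    intro t ht F K _ _ _ _ _ _ _ _ hFK hFd w hw hgen c hc α hα
    obtain ⟨h1, h2⟩ := hM t ht F K hFK hFd w hw hgen c hc α hα
    constructor
    · intro γ hγ
      apply h1 (γ ^ m)
      rw [hγ, hm, ← pow_mul, mul_comm m 3]
    · intro hB γ hγ
      apply h2 (fun j => by rw [Finset.prod_congr rfl fun i _ => hpow i]; exact hB j)
        (γ ^ (2 * m) * c α)
      have h3 : (γ ^ (2 * m) * c α) ^ 3 = (γ ^ n * c α) ^ 2 * c α := by
        rw [hm]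
        ring
      rw [h3, ← hγ]
  · have hI := hζ.pow hn0 (a := m) (b := 4) (by rw [hm]; ring)
    have hint : IsIntegral ℤ (ζ ^ m) := hI.isIntegral (by norm_num)
    have hI2 := hI.pow (by norm_num) (a := 2) (b := 2) (by norm_num)
    have hI' : ((⟨ζ ^ m, hint⟩ : 𝓞 k)) ^ 2 = -1 := by
      apply RingOfIntegers.ext
      change (ζ ^ m) ^ 2 = -1
      exact hI2.eq_neg_one_of_two_right
    have hpow : ∀ i, (β i ^ m) ^ 4 = β i ^ n := fun i => by
      rw [hm, ← pow_mul, mul_comm m 4]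
    obtain ⟨M, hM⟩ := nondih4 hk2 hI' hd b a (fun i => β i ^ m)
      (fun i => by rw [hpow]; exact hβ i) (fun i => pow_ne_zero _ (hβ0 i))
    refine ⟨M, ?_⟩
    intro t ht F K _ _ _ _ _ _ _ _ hFK hFd w hw hgen c hc α hα
    obtain ⟨h1, h2⟩ := hM t ht F K hFK hFd w hw hgen c hc α hα
    constructor
    · intro γ hγ
      apply h1 (γ ^ m)
      rw [hγ, hm, ← pow_mul, mul_comm m 4]
    · intro hB γ hγ
      apply h2 (fun j => by rw [Finset.prod_congr rfl fun i _ => hpow i]; exact hB j)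
        (γ ^ (2 * m) * c α)
      have h3 : (γ ^ (2 * m) * c α) ^ 2 = (γ ^ n * c α) * c α := by
        rw [hm]
        ring
      rw [h3, ← hγ]

end Pool.Agent.H76.KF
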